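import Pool.Agent.N795.LN.Dyad
import Pool.Agent.N795.ST.Main
import Pool.Agent.N795.ST.Weak2

/-!
# Summable long range rates: concentration of the mass, law of the ordered cycle lengths
-/

set_option autoImplicit false

namespace Pool.Agent.N795.LN

open Finset Equiv Filter Topology
open Pool.Agent.W805.LR (len cnt)
open Pool.Agent.TH268.PD (law mas TT BD top frac pdm)
open Pool.Agent.N795.ST

section

variable {d : ℕ} {σ lam S : ℝ} {J : (Fin d → ℤ) → ℝ}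

/-- **Concentration and the law of the ordered cycle lengths at a fixed scale.** -/
theorem core (hL : Lnmt) (hKer : Ker) (h : SM d σ lam S J) (hd : 1 ≤ d) (hσ : 0 < σ)
    (hσd : σ < d) (t : ℝ) (ht : 0 < t) (α : ℝ → ℝ) (m : ℝ)
    (hα : ∀ K, 0 ≤ K → Tendsto (fun L : ℕ => aa J t K (L + 1)) atTop (𝓝 (α K)))
    (hmα : ∀ K, 0 ≤ K → m ≤ α K)
    (hαm : Tendsto α atTop (𝓝 m))
    (k : ℕ) (f : (Fin k → ℝ) → ℝ) (hfc : Continuous f) (Cf : ℝ) (hCf : ∀ u, |f u| ≤ Cf)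
    (η : ℝ) (hη : 0 < η) :
    ∃ K₀ δ₀ : ℝ, 1 ≤ K₀ ∧ 0 < δ₀ ∧ ∃ L₀ : ℕ, ∀ (n : ℕ) [NeZero n], L₀ ≤ n →
      (∀ K : ℝ, K₀ ≤ K → K ≤ δ₀ * (n : ℝ) ^ d →
        mn (tr J : (Fin d → ZMod n) → (Fin d → ZMod n) → ℝ) t (fun g => |mas K g - m|) ≤ η) ∧
      ∃ K : ℝ, K₀ ≤ K ∧ K ≤ δ₀ * (n : ℝ) ^ d ∧
        |mn (tr J : (Fin d → ZMod n) → (Fin d → ZMod n) → ℝ) t
            (fun g => f (fun i => top (frac g) i)) -
          mn (tr J : (Fin d → ZMod n) → (Fin d → ZMod n) → ℝ) t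
            (fun g => pdm (fun u : Fin k → ℝ => f (fun i => mas K g * u i)))| ≤ η := by
  have hlam := h.lpos
  have hS := h.S_nonneg
  have hd1 : (1 : ℝ) ≤ d := by exact_mod_cast hd
  have hq := qq_pos (σ := σ) hd hσ
  have he := ee_pos hd hσ hσd
  have hη' : 0 < η / 8 := by positivity
  obtain ⟨δ₀, hδ₀, A₁, hA₁, HS⟩ := Pool.Agent.TH268.PD.stir_ord k f hfc Cf hCf (η / 8) hη'
  obtain ⟨A', hA'⟩ : ∃ A' : ℝ, A' = A₁ / Real.sqrt (t * lam) := ⟨_, rfl⟩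
  have hstl : 0 < Real.sqrt (t * lam) := Real.sqrt_pos.2 (by positivity)
  have hA'0 : 0 < A' := by rw [hA']; positivity
  obtain ⟨C₁, K₁, hC₁, hK₁, HW⟩ := sum_win hL hKer h hd hσ hσd t ht
  obtain ⟨K₂, HA⟩ := (Metric.tendsto_atTop.1 hαm) (η / 8) hη'
  have hlime : Tendsto (fun K : ℝ => C₁ * K ^ (-ee d σ)) atTop (𝓝 0) := by
    have := (tendsto_rpow_neg_atTop he).const_mul C₁
    rwa [mul_zero] at this
  obtain ⟨K₃, HE⟩ := Filter.eventually_atTop.1 (hlime.eventually_le_const hη')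
  obtain ⟨K₀, hK₀⟩ : ∃ K₀ : ℝ, K₀ = max K₁ (max K₂ K₃) := ⟨_, rfl⟩
  have hK₀a : K₁ ≤ K₀ := by rw [hK₀]; exact le_max_left _ _
  have hK₀1 : 1 ≤ K₀ := hK₁.trans hK₀a
  have hK₀0 : 0 ≤ K₀ := by linarith
  have hα2 := hmα K₀ hK₀0
  have hα1 : α K₀ ≤ m + η / 8 := by
    have h1 := HA K₀ (by rw [hK₀]; exact (le_max_left _ _).trans (le_max_right _ _))
    rw [Real.dist_eq, abs_lt] at h1
    linarith [h1.2]
  have hKe := HE K₀ (by rw [hK₀]; exact (le_max_right _ _).trans (le_max_right _ _))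
  -- the mean converges
  have hlimα := hα K₀ hK₀0
  obtain ⟨L₂, hL₂⟩ := (Metric.tendsto_atTop.1 hlimα) (η / 8) hη'
  -- growth
  obtain ⟨x, hx⟩ : ∃ x : ℝ, x = ((d : ℝ) + σ) / 2 * qq d σ := ⟨_, rfl⟩
  have hx1 : x < 1 := by
    rw [hx]
    unfold qq
    rw [div_mul_div_comm, div_lt_one (by positivity)]
    linarith
  have hx0 : 0 < x := by rw [hx]; positivity
  have hlim1 : Tendsto (fun L : ℕ => (L : ℝ) ^ d) atTop atTop :=
    (tendsto_pow_atTop (by omega)).comp tendsto_natCast_atTop_atTop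
  have hlim2 : Tendsto (fun L : ℕ => t * lam * (L : ℝ) ^ ((d : ℝ) - σ)) atTop atTop := by
    refine Tendsto.const_mul_atTop (by positivity) ?_
    exact (tendsto_rpow_atTop (by linarith)).comp tendsto_natCast_atTop_atTop
  have hlim3 : Tendsto (fun L : ℕ => (L : ℝ) ^ (((d : ℝ) - σ) / 2)) atTop atTop :=
    (tendsto_rpow_atTop (by linarith)).comp tendsto_natCast_atTop_atTop
  have hlim4 : Tendsto (fun L : ℕ => A' * (L : ℝ) ^ (((d : ℝ) + σ) / 2)) atTop atTop := by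
    refine Tendsto.const_mul_atTop hA'0 ?_
    exact (tendsto_rpow_atTop (by linarith)).comp tendsto_natCast_atTop_atTop
  have hlim5 : Tendsto (fun L : ℕ => (L : ℝ) ^ (1 - x)) atTop atTop :=
    (tendsto_rpow_atTop (by linarith)).comp tendsto_natCast_atTop_atTop
  obtain ⟨L₃, hL₃⟩ := Filter.eventually_atTop.1
    ((((((hlim1.eventually_ge_atTop A₁).and (hlim2.eventually_ge_atTop A₁)).and
      (hlim3.eventually_ge_atTop (A' / δ₀))).and (hlim4.eventually_ge_atTop K₀)).and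
      (hlim5.eventually_ge_atTop (2 * A' ^ qq d σ + 1))).and
      (hlim1.eventually_ge_atTop (4 * t * S * K₀ ^ 2 / (η / 8) ^ 2)))
  refine ⟨K₀, δ₀, hK₀1, hδ₀, max (L₂ + 1) L₃, fun n _ hn => ?_⟩
  have hn2 : L₂ + 1 ≤ n := (le_max_left _ _).trans hn
  have hn3 : L₃ ≤ n := (le_max_right _ _).trans hn
  obtain ⟨⟨⟨⟨⟨q1, q2⟩, q3⟩, q4⟩, q5⟩, q7⟩ := hL₃ n hn3
  have hn0 : (0 : ℝ) < n := by exact_mod_cast Nat.pos_of_ne_zero (NeZero.ne n)
  have hn1 : (1 : ℝ) ≤ n := by exact_mod_cast Nat.pos_of_ne_zero (NeZero.ne n)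
  have hcard := Pool.Agent.W805.LR.card_torus d n
  obtain ⟨T, hT⟩ : ∃ T : (Fin d → ZMod n) → (Fin d → ZMod n) → ℝ, T = tr J := ⟨_, rfl⟩
  rw [← hT]
  have hT0 : ∀ x y, 0 ≤ T x y := fun x y => by rw [hT]; exact h.tr_nonneg x y
  obtain ⟨κ, hκ⟩ : ∃ κ : ℝ, κ = lam * (n : ℝ) ^ (-((d : ℝ) + σ)) := ⟨_, rfl⟩
  have hκ0 : 0 < κ := by rw [hκ]; positivity
  obtain ⟨K', hK'⟩ : ∃ K' : ℝ, K' = A' * (n : ℝ) ^ (((d : ℝ) + σ) / 2) := ⟨_, rfl⟩
  have hKeq : A₁ / Real.sqrt (t * κ) = K' := by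
    have e1 : t * κ = (t * lam) * (n : ℝ) ^ (-((d : ℝ) + σ)) := by rw [hκ]; ring
    have e2 : Real.sqrt ((n : ℝ) ^ (-((d : ℝ) + σ))) = ((n : ℝ) ^ (((d : ℝ) + σ) / 2))⁻¹ := by
      rw [← Real.rpow_neg hn0.le, Real.sqrt_eq_rpow, ← Real.rpow_mul hn0.le]
      congr 1
      ring
    rw [hK', hA', e1, Real.sqrt_mul (by positivity), e2]
    field_simp
  have hK'le : K' ≤ δ₀ * (n : ℝ) ^ d := by
    have e1 : (n : ℝ) ^ d = (n : ℝ) ^ (((d : ℝ) - σ) / 2) * (n : ℝ) ^ (((d : ℝ) + σ) / 2) := by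
      rw [← Real.rpow_add hn0, ← Real.rpow_natCast]
      congr 1
      ring
    rw [hK', e1, ← mul_assoc]
    refine mul_le_mul_of_nonneg_right ?_ (by positivity)
    rw [div_le_iff₀ hδ₀] at q3
    linarith
  have hK'q : 2 * K' ^ qq d σ + 1 ≤ n := by
    have e1 : K' ^ qq d σ = A' ^ qq d σ * (n : ℝ) ^ x := by
      rw [hK', Real.mul_rpow hA'0.le (by positivity), ← Real.rpow_mul hn0.le, ← hx]
    have e2 : (n : ℝ) = (n : ℝ) ^ x * (n : ℝ) ^ (1 - x) := by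
      rw [← Real.rpow_add hn0]
      have : x + (1 - x) = 1 := by ring
      rw [this, Real.rpow_one]
    have e3 : 1 ≤ (n : ℝ) ^ x := Real.one_le_rpow hn1 hx0.le
    have e4 := mul_le_mul_of_nonneg_left q5 (show 0 ≤ (n : ℝ) ^ x by positivity)
    rw [← e2] at e4
    rw [e1]
    nlinarith
  have hK₀K' : K₀ ≤ K' := by rw [hK']; exact q4
  have hsi := HS (Fin d → ZMod n) T κ t ht hκ0
    (fun x y hxy => by rw [hT, hκ]; exact h.tr_lower hσ n x y hxy)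
    (fun x => by rw [hT]; exact tr_self J x)
    (by rw [hcard]; exact q1)
    (by
      rw [hcard]
      refine q2.trans (le_of_eq ?_)
      have e1 : ((n : ℝ) ^ d) ^ 2 = (n : ℝ) ^ (2 * (d : ℝ)) := by
        rw [← pow_mul, ← Real.rpow_natCast]
        push_cast
        ring_nf
      have e2 : (n : ℝ) ^ ((d : ℝ) - σ) = (n : ℝ) ^ (-((d : ℝ) + σ)) * (n : ℝ) ^ (2 * (d : ℝ)) := by
        rw [← Real.rpow_add hn0]
        ring_nf
      rw [e1, e2, hκ]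
      ring)
  rw [hKeq, hcard] at hsi
  -- the masses
  have hwin := HW t le_rfl n K₀ K' hK₀a hK'q
  rw [← hT] at hwin
  have hwin' : mn T t (win K₀ K') ≤ η / 8 := hwin.trans hKe
  have hgap := (hsi K' le_rfl hK'le).2
  have hne : Nonempty (Fin d → ZMod n) := ⟨fun _ => 0⟩
  have hmean : |mn T t (mas K₀) - m| ≤ η / 8 + η / 8 := by
    obtain ⟨L', rfl⟩ : ∃ L', n = L' + 1 := ⟨n - 1, by omega⟩
    have h1 := hL₂ L' (by omega)
    rw [Real.dist_eq] at h1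
    have h2 : aa J t K₀ (L' + 1) = mn T t (mas K₀) := by rw [hT]; rfl
    rw [h2] at h1
    have h3 : |α K₀ - m| ≤ η / 8 := by
      rw [abs_of_nonneg (by linarith)]
      linarith
    have h4 := abs_sub_le (mn T t (mas K₀)) (α K₀) m
    linarith
  have hvar : mn T t (fun g => |mas K₀ g - mn T t (mas K₀)|) ≤ η / 8 := by
    refine abs_var T t ht.le hT0 (2 * K₀ / Fintype.card (Fin d → ZMod n)) (mas K₀)
      (mas_BD hK₀0) (η / 8) hη' ?_
    have h1 : ∑ x, ∑ y, T x y / 2 ≤ (n : ℝ) ^ d * S / 2 := by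
      have h2 : ∑ x, ∑ y, T x y / 2 = (∑ x, ∑ y, T x y) / 2 := by
        rw [Finset.sum_div]
        exact Finset.sum_congr rfl fun x _ => by rw [Finset.sum_div]
      rw [h2]
      refine div_le_div_of_nonneg_right ?_ (by norm_num)
      have h3 : ∑ x, ∑ y, T x y ≤ ∑ _x : Fin d → ZMod n, S :=
        Finset.sum_le_sum fun x _ => by rw [hT]; exact h.row n x
      rw [Finset.sum_const, nsmul_eq_mul, Finset.card_univ, hcard] at h3
      exact h3
    rw [hcard]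
    have h2 : (0 : ℝ) < (n : ℝ) ^ d := by positivity
    have h3 : 2 * (t * ∑ x, ∑ y, T x y / 2) * (2 * K₀ / (n : ℝ) ^ d) ^ 2 ≤
        2 * (t * ((n : ℝ) ^ d * S / 2)) * (2 * K₀ / (n : ℝ) ^ d) ^ 2 := by
      refine mul_le_mul_of_nonneg_right ?_ (by positivity)
      exact mul_le_mul_of_nonneg_left (mul_le_mul_of_nonneg_left h1 ht.le) (by norm_num)
    refine h3.trans ?_
    have h4 : 2 * (t * ((n : ℝ) ^ d * S / 2)) * (2 * K₀ / (n : ℝ) ^ d) ^ 2 =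
        4 * t * S * K₀ ^ 2 / (n : ℝ) ^ d := by
      field_simp
      ring
    rw [h4, div_le_iff₀ h2]
    rw [div_le_iff₀ (by positivity)] at q7
    linarith
  have hconc : ∀ K : ℝ, K₀ ≤ K → K ≤ δ₀ * (n : ℝ) ^ d → mn T t (fun g => |mas K g - m|) ≤ η := by
    intro K hKa hKb
    have h1 : ∀ g : Perm (Fin d → ZMod n), |mas K g - m| ≤ (win K₀ K' g +
        (mas K' g - mas (δ₀ * (n : ℝ) ^ d) g)) + (|mas K₀ g - mn T t (mas K₀)| +
          |mn T t (mas K₀) - m|) := by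
      intro g
      have h2 := abs_sub_le (mas K g) (mas K₀ g) m
      have h3 := abs_sub_le (mas K₀ g) (mn T t (mas K₀)) m
      have h4 : |mas K g - mas K₀ g| ≤ mas K₀ g - mas (δ₀ * (n : ℝ) ^ d) g := by
        have h5 := Pool.Agent.TH268.PD.mas_anti hKa g
        have h6 := Pool.Agent.TH268.PD.mas_anti hKb g
        rw [abs_sub_comm, abs_of_nonneg (by linarith)]
        linarith
      unfold win
      linarith
    refine (mn_mono hT0 ht.le h1).trans ?_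
    rw [mn_add, mn_add, mn_add, mn_const hT0 ht.le]
    have h2 : mn T t (fun g => mas K' g - mas (δ₀ * (n : ℝ) ^ d) g) ≤ η / 8 := hgap
    have h3 : mn T t (fun g => win K₀ K' g) ≤ η / 8 := hwin'
    linarith
  refine ⟨hconc, K', hK₀K', hK'le, ?_⟩
  have h1 := (hsi K' le_rfl hK'le).1
  unfold mn
  linarith

/-- the tail of the limit -/
theorem tail (hL : Lnmt) (hKer : Ker) (h : SM d σ lam S J) (hd : 1 ≤ d) (hσ : 0 < σ)
    (hσd : σ < d) (t₀ : ℝ) (ht₀ : 0 < t₀) :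
    ∃ C : ℝ, 0 < C ∧ ∀ t, t₀ ≤ t → ∀ (α : ℝ → ℝ) (m : ℝ), 0 ≤ m →
      (∀ K, 0 ≤ K → Tendsto (fun L : ℕ => aa J t K (L + 1)) atTop (𝓝 (α K))) →
      Tendsto α atTop (𝓝 m) → ∀ K, 1 ≤ K → α K ≤ m + C * K ^ (-ee d σ) := by
  have he := ee_pos hd hσ hσd
  obtain ⟨C₁, K₁, hC₁, hK₁, HW⟩ := sum_win hL hKer h hd hσ hσd t₀ ht₀
  refine ⟨max C₁ (K₁ ^ ee d σ), lt_of_lt_of_le hC₁ (le_max_left _ _), ?_⟩
  intro t ht α m hm0 hα hαm K hK
  have ht0 : 0 < t := lt_of_lt_of_le ht₀ ht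
  have hK0 : 0 < K := by linarith
  have hX0 : 0 < K ^ (-ee d σ) := by positivity
  by_cases hKK : K₁ ≤ K
  · have h1 : ∀ K' : ℝ, 0 ≤ K' → α K - α K' ≤ C₁ * K ^ (-ee d σ) := by
      intro K' hK'
      refine le_of_tendsto ((hα K hK0.le).sub (hα K' hK')) ?_
      have hlim : Tendsto (fun L : ℕ => (L : ℝ) + 1) atTop atTop :=
        tendsto_atTop_add_const_right _ _ tendsto_natCast_atTop_atTop
      filter_upwards [hlim.eventually_ge_atTop (2 * K' ^ qq d σ + 1)] with L hL'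
      have h2 := HW t ht (L + 1) K K' hKK (by push_cast; exact hL')
      have h3 : mn (tr J : (Fin d → ZMod (L + 1)) → (Fin d → ZMod (L + 1)) → ℝ) t (win K K') =
        aa J t K (L + 1) - aa J t K' (L + 1) := mn_sub _ t _ _
      rw [h3] at h2
      exact h2
    have h2 : α K - m ≤ C₁ * K ^ (-ee d σ) := by
      refine le_of_tendsto (hαm.const_sub (α K)) ?_
      filter_upwards [Filter.eventually_ge_atTop (0 : ℝ)] with K' hK'
      exact h1 K' hK'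
    have h3 := mul_le_mul_of_nonneg_right (le_max_left C₁ (K₁ ^ ee d σ)) hX0.le
    linarith
  · rw [not_le] at hKK
    have h1 : α K ≤ 1 := le_of_tendsto' (hα K hK0.le) fun L => h.aa_le_one ht0 K (L + 1)
    have h2 : 1 ≤ K₁ ^ ee d σ * K ^ (-ee d σ) := by
      have h3 : K ^ ee d σ ≤ K₁ ^ ee d σ := Real.rpow_le_rpow hK0.le hKK.le he.le
      have h4 : K ^ ee d σ * K ^ (-ee d σ) = 1 := by
        rw [← Real.rpow_add hK0, add_neg_cancel, Real.rpow_zero]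
      rw [← h4]
      exact mul_le_mul_of_nonneg_right h3 hX0.le
    have h3 := mul_le_mul_of_nonneg_right (le_max_right C₁ (K₁ ^ ee d σ)) hX0.le
    linarith

end

end Pool.Agent.N795.LN
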