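import Pool.Agent.N795.LN.Rate

/-!
# The window bound on the torus
-/

set_option autoImplicit false

namespace Pool.Agent.N795.LN

open Finset Equiv Filter Topology
open Pool.Agent.W805.LR (len cnt)
open Pool.Agent.TH268.PD (law mas)
open Pool.Agent.N795.ST

/-- the exponent of the distance -/
noncomputable def qq (d : ℕ) (σ : ℝ) : ℝ := 3 / (2 * d + σ)

/-- the exponent of the window bound -/
noncomputable def ee (d : ℕ) (σ : ℝ) : ℝ := ((d : ℝ) - σ) / (2 * (2 * d + σ))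

theorem ker_nonneg {d M : ℕ} {u : ℝ} (hu : 0 ≤ u) (r : ℕ) (x y : Fin d → ZMod M) :
    0 ≤ ker u r x y := by
  unfold ker
  split_ifs
  · exact hu
  · exact le_rfl

theorem ker_le_u {d M : ℕ} {u : ℝ} (hu : 0 ≤ u) (r : ℕ) (x y : Fin d → ZMod M) :
    ker u r x y ≤ u := by
  unfold ker
  split_ifs
  · exact le_rfl
  · exact hu

section

variable {d : ℕ} {σ lam S : ℝ} {J : (Fin d → ℤ) → ℝ}

theorem qq_pos (hd : 1 ≤ d) (hσ : 0 < σ) : 0 < qq d σ := by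
  unfold qq
  have : (1 : ℝ) ≤ d := by exact_mod_cast hd
  positivity

theorem ee_pos (hd : 1 ≤ d) (hσ : 0 < σ) (hσd : σ < d) : 0 < ee d σ := by
  unfold ee
  have : (1 : ℝ) ≤ d := by exact_mod_cast hd
  have : 0 < (d : ℝ) - σ := by linarith
  positivity

theorem qq_ee1 (hd : 1 ≤ d) (hσ : 0 < σ) : 1 - qq d σ * σ = 4 * ee d σ := by
  unfold qq ee
  have : (1 : ℝ) ≤ d := by exact_mod_cast hd
  have : 2 * (d : ℝ) + σ ≠ 0 := by positivity
  field_simp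
  ring

theorem qq_ee2 (hd : 1 ≤ d) (hσ : 0 < σ) : 1 - qq d σ * d = -(2 * ee d σ) := by
  unfold qq ee
  have : (1 : ℝ) ≤ d := by exact_mod_cast hd
  have : 2 * (d : ℝ) + σ ≠ 0 := by positivity
  field_simp
  ring

/-- one window -/
theorem one_win (hL : Lnmt) (hKer : Ker) (h : SM d σ lam S J) (hd : 1 ≤ d) (hσ : 0 < σ)
    (hσd : σ < d) (t₀ : ℝ) (ht₀ : 0 < t₀) :
    ∃ C₁ K₁ : ℝ, 0 < C₁ ∧ 1 ≤ K₁ ∧ ∀ t, t₀ ≤ t → ∀ (n : ℕ) [NeZero n] (K : ℝ), K₁ ≤ K →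
      2 * K ^ qq d σ + 1 ≤ n →
      mn (tr J : (Fin d → ZMod n) → (Fin d → ZMod n) → ℝ) t (win K (2 * K)) ≤
        C₁ * K ^ (-ee d σ) := by
  classical
  have hd1 : (1 : ℝ) ≤ d := by exact_mod_cast hd
  have hlam := h.lpos
  have hq := qq_pos (σ := σ) hd hσ
  have he := ee_pos hd hσ hσd
  obtain ⟨C, hC, H⟩ := hL
  obtain ⟨c₀, hc₀⟩ : ∃ c₀ : ℝ, c₀ = t₀ * lam * 2 ^ (-σ) := ⟨_, rfl⟩
  have hc₀0 : 0 < c₀ := by rw [hc₀]; positivity
  obtain ⟨B, hB⟩ : ∃ B : ℝ, B = C * (Real.sqrt (3 ^ d) / Real.sqrt c₀ + 1) := ⟨_, rfl⟩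
  have hB0 : 0 < B := by rw [hB]; positivity
  obtain ⟨K₂, hK₂⟩ := Filter.eventually_atTop.1
    ((tendsto_rpow_atTop (show 0 < 4 * ee d σ by positivity)).eventually_ge_atTop (1 / c₀))
  refine ⟨Real.sqrt B, max 1 K₂, Real.sqrt_pos.2 hB0, le_max_left _ _, ?_⟩
  intro t ht n _ K hK hn
  have ht0 : 0 < t := lt_of_lt_of_le ht₀ ht
  have hK1 : 1 ≤ K := (le_max_left _ _).trans hK
  have hK0 : 0 < K := by linarith
  have hKe := hK₂ K ((le_max_right _ _).trans hK)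
  rw [div_le_iff₀ hc₀0] at hKe
  obtain ⟨P, hP⟩ : ∃ P : ℝ, P = K ^ qq d σ := ⟨_, rfl⟩
  have hP1 : 1 ≤ P := by rw [hP]; exact Real.one_le_rpow hK1 hq.le
  obtain ⟨r, hr⟩ : ∃ r : ℕ, r = ⌈P⌉₊ := ⟨_, rfl⟩
  obtain ⟨R, hR⟩ : ∃ R : ℝ, R = (r : ℝ) := ⟨_, rfl⟩
  have hRP : P ≤ R := by rw [hR, hr]; exact Nat.le_ceil P
  have hRP2 : R ≤ 2 * P := by
    rw [hR, hr]
    have := Nat.ceil_lt_add_one (show 0 ≤ P by linarith)
    linarith
  have hR1 : 1 ≤ R := hP1.trans hRP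
  have hR0 : 0 < R := by linarith
  have hrn : r + 1 ≤ n := by
    have h1 : (r : ℝ) + 1 ≤ n := by
      rw [← hR]
      rw [← hP] at hn
      linarith
    exact_mod_cast h1
  obtain ⟨u, hu⟩ : ∃ u : ℝ, u = lam * R ^ (-((d : ℝ) + σ)) := ⟨_, rfl⟩
  have hu0 : 0 < u := by rw [hu]; positivity
  obtain ⟨k1, k2⟩ := hKer d n r u hu0.le hrn
  rw [← hR] at k1 k2
  obtain ⟨Y, hY⟩ : ∃ Y : ℝ, Y = t * lam * K * R ^ (-σ) := ⟨_, rfl⟩
  have hY0 : 0 < Y := by rw [hY]; positivity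
  have f1 : R ^ (-((d : ℝ) + σ)) * R ^ d = R ^ (-σ) := by
    rw [← Real.rpow_natCast, ← Real.rpow_add hR0]
    congr 1
    ring
  have hYu : t * u * R ^ d * K = Y := by
    rw [hY, hu, ← f1]
    ring
  obtain ⟨κ, hκ⟩ : ∃ κ : ℝ, κ = u * (2 * R + 1) ^ d := ⟨_, rfl⟩
  have hκ0 : 0 < κ := by rw [hκ]; positivity
  have f3 : t * κ * K ≤ 3 ^ d * Y := by
    have h1 : (2 * R + 1) ^ d ≤ 3 ^ d * R ^ d := by
      rw [← mul_pow]
      exact pow_le_pow_left₀ (by positivity) (by linarith) d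
    rw [hκ, ← hYu]
    calc t * (u * (2 * R + 1) ^ d) * K = (t * u * K) * (2 * R + 1) ^ d := by ring
      _ ≤ (t * u * K) * (3 ^ d * R ^ d) := mul_le_mul_of_nonneg_left h1 (by positivity)
      _ = 3 ^ d * (t * u * R ^ d * K) := by ring
  have f4 : Y ≤ t * κ * K := by
    have h1 : R ^ d ≤ (2 * R + 1) ^ d := pow_le_pow_left₀ hR0.le (by linarith) d
    rw [hκ, ← hYu]
    calc t * u * R ^ d * K = (t * u * K) * R ^ d := by ring
      _ ≤ (t * u * K) * (2 * R + 1) ^ d := mul_le_mul_of_nonneg_left h1 (by positivity)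
      _ = t * (u * (2 * R + 1) ^ d) * K := by ring
  have hb : R ^ d ≤ (R + 1) ^ d := pow_le_pow_left₀ hR0.le (by linarith) d
  have f5 : Y ≤ t * u * (R + 1) ^ d * K := by
    rw [← hYu]
    calc t * u * R ^ d * K = (t * u * K) * R ^ d := by ring
      _ ≤ (t * u * K) * (R + 1) ^ d := mul_le_mul_of_nonneg_left hb (by positivity)
      _ = t * u * (R + 1) ^ d * K := by ring
  have f6 : c₀ * K ^ (4 * ee d σ) ≤ Y := by
    have h1 : (2 * P) ^ (-σ) ≤ R ^ (-σ) :=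
      Real.rpow_le_rpow_of_nonpos hR0 hRP2 (by linarith)
    have h2 : (2 * P) ^ (-σ) = 2 ^ (-σ) * K ^ (-(qq d σ * σ)) := by
      rw [Real.mul_rpow (by norm_num) (by linarith), hP, ← Real.rpow_mul hK0.le]
      congr 2
      ring
    have h3 : K * K ^ (-(qq d σ * σ)) = K ^ (4 * ee d σ) := by
      rw [← qq_ee1 hd hσ, sub_eq_add_neg, Real.rpow_add hK0, Real.rpow_one]
    rw [h2] at h1
    rw [hY, hc₀, ← h3]
    calc t₀ * lam * 2 ^ (-σ) * (K * K ^ (-(qq d σ * σ))) =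
        (t₀ * lam * K) * (2 ^ (-σ) * K ^ (-(qq d σ * σ))) := by ring
      _ ≤ (t * lam * K) * (2 ^ (-σ) * K ^ (-(qq d σ * σ))) := by
        refine mul_le_mul_of_nonneg_right ?_ (by positivity)
        exact mul_le_mul_of_nonneg_right (mul_le_mul_of_nonneg_right ht hlam.le) hK0.le
      _ ≤ (t * lam * K) * R ^ (-σ) := mul_le_mul_of_nonneg_left h1 (by positivity)
  have hY1 : 1 ≤ Y := by
    rw [mul_comm] at hKe
    exact hKe.trans f6
  have hJ1 : ∀ x y : Fin d → ZMod n, 0 ≤ tr J x y - ker u r x y := by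
    intro x y
    unfold ker
    by_cases hxy : x ≠ y ∧ nrm (disp x y) ≤ r
    · rw [if_pos hxy]
      have h1 := h.le_tr hxy.1
      have h2 : (1 : ℝ) ≤ nrm (disp x y) := by
        exact_mod_cast nrm_pos fun h' => hxy.1 ((disp_eq_zero x y).1 h')
      have h3 : (nrm (disp x y) : ℝ) ≤ R := by rw [hR]; exact_mod_cast hxy.2
      have h4 : R ^ (-((d : ℝ) + σ)) ≤ (nrm (disp x y) : ℝ) ^ (-((d : ℝ) + σ)) :=
        Real.rpow_le_rpow_of_nonpos (by linarith) h3 (by linarith)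
      have h5 := mul_le_mul_of_nonneg_left h4 hlam.le
      rw [← hu] at h5
      linarith
    · rw [if_neg hxy, sub_zero]
      exact h.tr_nonneg x y
  have hne : Nonempty (Fin d → ZMod n) := ⟨fun _ => 0⟩
  have hmain := H (Fin d → ZMod n) (fun x y => tr J x y - ker u r x y) (ker u r) t u
    ((R + 1) ^ d) κ K hJ1 (ker_nonneg hu0.le r) (ker_le_u hu0.le r) ht0 hu0 (by positivity) hκ0 hK1
    (hY1.trans f4) (by rw [hκ]; exact k1) k2
  have e1 : (fun x y : Fin d → ZMod n => (tr J x y - ker u r x y) + ker u r x y) = tr J := by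
    funext x y
    ring
  rw [e1] at hmain
  obtain ⟨X, hX⟩ : ∃ X : ℝ, X = K ^ (-ee d σ) := ⟨_, rfl⟩
  have hX0 : 0 < X := by rw [hX]; positivity
  have hX2 : K ^ (-(2 * ee d σ)) = X ^ 2 := by
    rw [hX, ← Real.rpow_natCast, ← Real.rpow_mul hK0.le]
    congr 1
    push_cast
    ring
  have g1 : Real.sqrt (t * κ * K) / (t * u * (R + 1) ^ d * K) ≤
      Real.sqrt (3 ^ d) / Real.sqrt c₀ * X ^ 2 := by
    have h1 : Real.sqrt (t * κ * K) ≤ Real.sqrt (3 ^ d) * Real.sqrt Y := by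
      rw [← Real.sqrt_mul (by positivity)]
      exact Real.sqrt_le_sqrt f3
    have h2 : Real.sqrt (t * κ * K) / (t * u * (R + 1) ^ d * K) ≤
        Real.sqrt (3 ^ d) * Real.sqrt Y / Y := by
      refine div_le_div₀ (by positivity) h1 hY0 f5
    have hsY : 0 < Real.sqrt Y := Real.sqrt_pos.2 hY0
    have h3 : Real.sqrt (3 ^ d) * Real.sqrt Y / Y = Real.sqrt (3 ^ d) / Real.sqrt Y := by
      have h4 : Real.sqrt Y * Real.sqrt Y = Y := Real.mul_self_sqrt hY0.le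
      rw [div_eq_div_iff hY0.ne' hsY.ne']
      linear_combination (Real.sqrt (3 ^ d)) * h4
    rw [h3] at h2
    refine h2.trans ?_
    have h4 : Real.sqrt c₀ * (X ^ 2)⁻¹ ≤ Real.sqrt Y := by
      have h5 : (X ^ 2)⁻¹ = Real.sqrt (K ^ (4 * ee d σ)) := by
        rw [← hX2, ← Real.rpow_neg hK0.le, neg_neg, Real.sqrt_eq_rpow, ← Real.rpow_mul hK0.le]
        congr 1
        ring
      rw [h5, ← Real.sqrt_mul hc₀0.le]
      exact Real.sqrt_le_sqrt f6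
    have hsc : 0 < Real.sqrt c₀ := Real.sqrt_pos.2 hc₀0
    refine (div_le_div_of_nonneg_left (Real.sqrt_nonneg _) (by positivity) h4).trans
      (le_of_eq ?_)
    field_simp
  have g2 : K / (R + 1) ^ d ≤ X ^ 2 := by
    have h1 : P ^ d ≤ (R + 1) ^ d := pow_le_pow_left₀ (by linarith) (by linarith) d
    refine (div_le_div_of_nonneg_left hK0.le (by positivity) h1).trans (le_of_eq ?_)
    rw [← hX2, ← qq_ee2 hd hσ, sub_eq_add_neg, Real.rpow_add hK0, Real.rpow_one,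
      Real.rpow_neg hK0.le, Real.rpow_mul hK0.le, ← hP, Real.rpow_natCast, div_eq_mul_inv]
  have hp0 : 0 ≤ mn (tr J : (Fin d → ZMod n) → (Fin d → ZMod n) → ℝ) t (win K (2 * K)) :=
    mn_nonneg (fun x y => h.tr_nonneg x y) ht0.le fun g => win_nonneg (by linarith) g
  have hfin : mn (tr J : (Fin d → ZMod n) → (Fin d → ZMod n) → ℝ) t (win K (2 * K)) ^ 2 ≤
      (Real.sqrt B * X) ^ 2 := by
    have h1 : (∑ g, law (tr J : (Fin d → ZMod n) → (Fin d → ZMod n) → ℝ) t g *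
        win K (2 * K) g) = mn (tr J) t (win K (2 * K)) := rfl
    rw [h1] at hmain
    rw [mul_pow, Real.sq_sqrt hB0.le, hB]
    refine hmain.trans ?_
    have h2 := mul_le_mul_of_nonneg_left (add_le_add g1 g2) hC.le
    refine h2.trans (le_of_eq ?_)
    ring
  rw [← hX]
  exact (sq_le_sq₀ hp0 (by positivity)).1 hfin

/-- all windows -/
theorem sum_win (hL : Lnmt) (hKer : Ker) (h : SM d σ lam S J) (hd : 1 ≤ d) (hσ : 0 < σ)
    (hσd : σ < d) (t₀ : ℝ) (ht₀ : 0 < t₀) :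
    ∃ C₁ K₁ : ℝ, 0 < C₁ ∧ 1 ≤ K₁ ∧ ∀ t, t₀ ≤ t → ∀ (n : ℕ) [NeZero n] (K K' : ℝ), K₁ ≤ K →
      2 * K' ^ qq d σ + 1 ≤ n →
      mn (tr J : (Fin d → ZMod n) → (Fin d → ZMod n) → ℝ) t (win K K') ≤
        C₁ * K ^ (-ee d σ) := by
  have hq := qq_pos (σ := σ) hd hσ
  have he := ee_pos hd hσ hσd
  obtain ⟨C, K₁, hC, hK₁, H⟩ := one_win hL hKer h hd hσ hσd t₀ ht₀
  obtain ⟨a, ha⟩ : ∃ a : ℝ, a = (2 : ℝ) ^ (-ee d σ) := ⟨_, rfl⟩
  have ha0 : 0 < a := by rw [ha]; positivity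
  have ha1 : a < 1 := by
    rw [ha]
    exact Real.rpow_lt_one_of_one_lt_of_neg (by norm_num) (by linarith)
  have ha2 : 0 < 1 - a := by linarith
  refine ⟨C / (1 - a), K₁, by positivity, hK₁, ?_⟩
  intro t ht n _ K K' hK hn
  have ht0 : 0 < t := lt_of_lt_of_le ht₀ ht
  have hK0 : 0 < K := by linarith
  have hJ0 : ∀ x y : Fin d → ZMod n, 0 ≤ tr J x y := fun x y => h.tr_nonneg x y
  have hR0 : 0 ≤ C / (1 - a) * K ^ (-ee d σ) := by positivity
  by_cases hcase : K' ≤ K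
  · refine (mn_le_const hJ0 ht0.le 0 fun g => ?_).trans hR0
    unfold win
    linarith [Pool.Agent.TH268.PD.mas_anti hcase g]
  rw [not_le] at hcase
  have hK'0 : 0 < K' := by linarith
  obtain ⟨I, hI1, hI2⟩ : ∃ I : ℕ, K' ≤ K * 2 ^ I ∧ ∀ j : ℕ, j < I → K * 2 ^ j ≤ K' := by
    have h1 : ∃ I : ℕ, K' ≤ K * 2 ^ I := by
      obtain ⟨I, hI⟩ := pow_unbounded_of_one_lt (K' / K) (show (1 : ℝ) < 2 by norm_num)
      refine ⟨I, ?_⟩
      rw [div_lt_iff₀ hK0] at hI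
      linarith
    classical
    refine ⟨Nat.find h1, Nat.find_spec h1, fun j hj => ?_⟩
    exact (not_le.1 (Nat.find_min h1 hj)).le
  have h1 : mn (tr J : (Fin d → ZMod n) → (Fin d → ZMod n) → ℝ) t (win K K') ≤
      mn (tr J : (Fin d → ZMod n) → (Fin d → ZMod n) → ℝ) t (fun g => ∑ j ∈ range I,
        win (K * 2 ^ j) (2 * (K * 2 ^ j)) g) := by
    refine mn_mono hJ0 ht0.le fun g => ?_
    rw [← win_dyadic]
    exact win_mono_right hI1 g
  refine h1.trans ?_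
  rw [mn_sum]
  have h2 : ∀ j ∈ range I, mn (tr J : (Fin d → ZMod n) → (Fin d → ZMod n) → ℝ) t
      (win (K * 2 ^ j) (2 * (K * 2 ^ j))) ≤ C * K ^ (-ee d σ) * a ^ j := by
    intro j hj
    have hj' := Finset.mem_range.1 hj
    have h2j : (1 : ℝ) ≤ 2 ^ j := one_le_pow₀ (by norm_num)
    have h3 := H t ht n (K * 2 ^ j) (by nlinarith) (by
      have h4 : (K * 2 ^ j) ^ qq d σ ≤ K' ^ qq d σ :=
        Real.rpow_le_rpow (by positivity) (hI2 j hj') hq.le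
      linarith)
    refine h3.trans (le_of_eq ?_)
    rw [Real.mul_rpow hK0.le (by positivity), ha]
    have h5 : ((2 : ℝ) ^ j) ^ (-ee d σ) = ((2 : ℝ) ^ (-ee d σ)) ^ j := by
      rw [← Real.rpow_natCast, ← Real.rpow_natCast, ← Real.rpow_mul (by norm_num),
        ← Real.rpow_mul (by norm_num), mul_comm]
    rw [h5]
    ring
  refine (Finset.sum_le_sum h2).trans ?_
  rw [← Finset.mul_sum, geom_sum_eq ha1.ne]
  have h3 : (a ^ I - 1) / (a - 1) ≤ 1 / (1 - a) := by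
    have h4 : 0 < a ^ I := by positivity
    rw [← neg_div_neg_eq, div_le_div_iff₀ (by linarith) ha2]
    nlinarith
  refine (mul_le_mul_of_nonneg_left h3 (by positivity)).trans (le_of_eq ?_)
  field_simp

end

end Pool.Agent.N795.LN
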