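import Pool.Agent.N795.LN.Core
import Pool.Agent.N795.ST.Fin

/-!
# Summable long range rates: all times, Hölder continuity of the mass
-/

set_option autoImplicit false

namespace Pool.Agent.N795.LN

open Finset Equiv Filter Topology
open Pool.Agent.W805.LR (len cnt)
open Pool.Agent.TH268.PD (law mas TT BD top frac pdm PJ)
open Pool.Agent.N795.ST

/-- change of time -/
theorem mn_scale {V : Type} [Fintype V] [DecidableEq V] (J : V → V → ℝ) (hJ : ∀ x y, 0 ≤ J x y)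
    (t c : ℝ) (hc : 0 < c) (F : Perm V → ℝ) :
    mn (fun x y => c * J x y) t F = mn J (c * t) F := by
  obtain ⟨R, hR⟩ : ∃ R : ℝ, R = ∑ x, ∑ y, J x y / 2 + 1 := ⟨_, rfl⟩
  have hJ2 : 0 ≤ ∑ x, ∑ y, J x y / 2 := Finset.sum_nonneg fun x _ =>
    Finset.sum_nonneg fun y _ => div_nonneg (hJ x y) two_pos.le
  have hR0 : 0 < R := by linarith
  have h1 := Pool.Agent.TH268.PD.unif_law V (fun x y => c * J x y) t (c * R) F (by positivity)
  have h2 := Pool.Agent.TH268.PD.unif_law V J (c * t) R F hR0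
  have h3 : PJ (fun x y => c * J x y) (c * R) = PJ J R := by
    funext G g
    unfold PJ
    have e1 : ∑ x, ∑ y, c * J x y / 2 * G (g * swap x y) =
        c * ∑ x, ∑ y, J x y / 2 * G (g * swap x y) := by
      rw [Finset.mul_sum]
      refine Finset.sum_congr rfl fun x _ => ?_
      rw [Finset.mul_sum]
      exact Finset.sum_congr rfl fun y _ => by ring
    have e2 : ∑ x, ∑ y, c * J x y / 2 = c * ∑ x, ∑ y, J x y / 2 := by
      rw [Finset.mul_sum]
      refine Finset.sum_congr rfl fun x _ => ?_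
      rw [Finset.mul_sum]
      exact Finset.sum_congr rfl fun y _ => by ring
    rw [e1, e2]
    field_simp
  rw [h3] at h1
  have h4 : t * (c * R) = c * t * R := by ring
  rw [h4] at h1
  exact h1.unique h2

section

variable {d : ℕ} {σ lam S : ℝ} {J : (Fin d → ℤ) → ℝ}

/-- dependence of the mean mass on the time -/
theorem aa_time (h : SM d σ lam S J) {t t' : ℝ} (ht : 0 < t) (ht' : 0 < t') {K : ℝ} (hK : 0 ≤ K)
    (n : ℕ) [NeZero n] : |aa J t K n - aa J t' K n| ≤ S * K * |t - t'| := by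
  obtain ⟨T, hT⟩ : ∃ T : (Fin d → ZMod n) → (Fin d → ZMod n) → ℝ, T = tr J := ⟨_, rfl⟩
  have hT0 : ∀ x y, 0 ≤ T x y := fun x y => by rw [hT]; exact h.tr_nonneg x y
  have hne : Nonempty (Fin d → ZMod n) := ⟨fun _ => 0⟩
  have hN : (0 : ℝ) < Fintype.card (Fin d → ZMod n) := by exact_mod_cast Fintype.card_pos
  obtain ⟨c, hc⟩ : ∃ c : ℝ, c = t' / t := ⟨_, rfl⟩
  have hc0 : 0 < c := by rw [hc]; positivity
  have hct : c * t = t' := by rw [hc]; field_simp
  have h1 : aa J t' K n = mn (fun x y => c * T x y) t (mas K) := by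
    rw [mn_scale T hT0 t c hc0, hct, hT]
    rfl
  have h2 : aa J t K n = mn T t (mas K) := by rw [hT]; rfl
  rw [h1, h2]
  have h3 := cmp (J₁ := T) (J₂ := fun x y => c * T x y) (t := t) hT0
    (fun x y => mul_nonneg hc0.le (hT0 x y)) ht.le (mas_BD hK)
  refine h3.trans ?_
  have h4 : ∑ x, ∑ y, |T x y - c * T x y| / 2 = |1 - c| * ((∑ x, ∑ y, T x y) / 2) := by
    rw [Finset.sum_div, Finset.mul_sum]
    refine Finset.sum_congr rfl fun x _ => ?_
    rw [Finset.sum_div, Finset.mul_sum]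
    refine Finset.sum_congr rfl fun y _ => ?_
    have : T x y - c * T x y = (1 - c) * T x y := by ring
    rw [this, abs_mul, abs_of_nonneg (hT0 x y)]
    ring
  have h5 : ∑ x, ∑ y, T x y ≤ Fintype.card (Fin d → ZMod n) * S := by
    have h6 : ∑ x, ∑ y, T x y ≤ ∑ _x : Fin d → ZMod n, S :=
      Finset.sum_le_sum fun x _ => by rw [hT]; exact h.row n x
    rwa [Finset.sum_const, nsmul_eq_mul, Finset.card_univ] at h6
  have h6 : t * |1 - c| = |t - t'| := by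
    rw [← hct, ← abs_of_pos ht, ← abs_mul, abs_of_pos ht]
    congr 1
    ring
  rw [h4]
  calc t * (|1 - c| * ((∑ x, ∑ y, T x y) / 2)) * (2 * K / Fintype.card (Fin d → ZMod n)) =
      (t * |1 - c|) * (K / Fintype.card (Fin d → ZMod n)) * ∑ x, ∑ y, T x y := by ring
    _ ≤ (t * |1 - c|) * (K / Fintype.card (Fin d → ZMod n)) *
        (Fintype.card (Fin d → ZMod n) * S) :=
      mul_le_mul_of_nonneg_left h5 (by positivity)
    _ = S * K * |t - t'| := by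
      rw [h6]
      field_simp

/-- large times -/
theorem large (hd : 1 ≤ d) (hσ : 0 < σ) (hσd : σ < d) (h : SM d σ lam S J) (θ : ℝ) (hθ : 0 < θ) :
    ∃ t₁ : ℝ, 0 < t₁ ∧ ∀ t : ℝ, t₁ ≤ t → ∀ K : ℝ, ∃ L₀ : ℕ, ∀ (n : ℕ) [NeZero n], L₀ ≤ n →
      1 - θ ≤ aa J t K n := by
  classical
  have hlam := h.lpos
  obtain ⟨t₁, ht₁, ε, hε, H⟩ := Pool.Agent.TH268.PD.large_time d σ lam θ hd hσ hσd hlam hθ
  refine ⟨t₁, ht₁, fun t ht K => ?_⟩
  have ht0 : 0 < t := lt_of_lt_of_le ht₁ ht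
  obtain ⟨L₁, hL₁⟩ := H t ht
  have hlim1 : Tendsto (fun L : ℕ => ε * (L : ℝ) ^ d) atTop atTop :=
    Tendsto.const_mul_atTop hε ((tendsto_pow_atTop (by omega)).comp tendsto_natCast_atTop_atTop)
  obtain ⟨L₂, hL₂⟩ := Filter.eventually_atTop.1 (hlim1.eventually_ge_atTop K)
  refine ⟨max L₁ L₂, fun n _ hn => ?_⟩
  have h1 := hL₁ n ((le_max_left _ _).trans hn) (tr J) ⟨tr_symm J, tr_self J, fun x y hxy => by
    refine le_trans ?_ (h.le_tr hxy)
    refine mul_le_mul_of_nonneg_left ?_ hlam.le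
    have h2 : (1 : ℝ) ≤ (nrm (disp x y) : ℝ) := by
      exact_mod_cast nrm_pos fun h' => hxy ((disp_eq_zero x y).1 h')
    have h3 : (nrm (disp x y) : ℝ) ≤ Pool.Agent.W805.LR.bdist x y := by
      have := Pool.Agent.W805.LR.tdist_le_bdist x y
      exact_mod_cast this
    refine Real.rpow_le_rpow_of_nonpos (by linarith) h3 ?_
    have : (0 : ℝ) ≤ d := by positivity
    linarith⟩
  have h2 := hL₂ n ((le_max_right _ _).trans hn)
  have hcard := Pool.Agent.W805.LR.card_torus d n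
  have hne : Nonempty (Fin d → ZMod n) := ⟨fun _ => 0⟩
  have hN : (0 : ℝ) < Fintype.card (Fin d → ZMod n) := by exact_mod_cast Fintype.card_pos
  have hT0 : ∀ x y : Fin d → ZMod n, 0 ≤ tr J x y := fun x y => h.tr_nonneg x y
  have h3 : mn (tr J) t (fun g : Perm (Fin d → ZMod n) =>
      1 - mas (ε * Fintype.card (Fin d → ZMod n)) g) ≤ θ := by
    have e1 : mn (tr J) t (fun g : Perm (Fin d → ZMod n) =>
        1 - mas (ε * Fintype.card (Fin d → ZMod n)) g) =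
        (∑ g : Perm (Fin d → ZMod n), law (tr J) t g *
          (cnt fun v : Fin d → ZMod n => len g v < ε * Fintype.card (Fin d → ZMod n))) /
          Fintype.card (Fin d → ZMod n) := by
      unfold mn
      rw [Finset.sum_div]
      refine Finset.sum_congr rfl fun g _ => ?_
      beta_reduce
      rw [Pool.Agent.TH268.PD.one_sub_mas]
      ring
    rw [e1, div_le_iff₀ hN]
    exact h1
  rw [mn_sub, mn_const hT0 ht0.le] at h3
  have h4 : mn (tr J) t (fun g : Perm (Fin d → ZMod n) =>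
      mas (ε * Fintype.card (Fin d → ZMod n)) g) ≤ aa J t K n := by
    unfold aa
    refine mn_mono hT0 ht0.le fun g => Pool.Agent.TH268.PD.mas_anti ?_ g
    rw [hcard]
    exact h2
  linarith

/-- the statement at a fixed time -/
theorem fixed (hL : Lnmt) (hKer : Ker) (hGeo : Geo) (h : SM d σ lam S J) (hd : 1 ≤ d) (hσ : 0 < σ)
    (hσd : σ < d) (t : ℝ) (ht : 0 < t) :
    ∃ (α : ℝ → ℝ) (m : ℝ), 0 ≤ m ∧ m ≤ 1 ∧
      (∀ K, 0 ≤ K → Tendsto (fun L : ℕ => aa J t K (L + 1)) atTop (𝓝 (α K))) ∧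
      Tendsto α atTop (𝓝 m) ∧ (∀ K, 0 ≤ K → m ≤ α K) ∧
      (∀ ε : ℝ, 0 < ε → ∃ K₀ δ₀ : ℝ, 1 ≤ K₀ ∧ 0 < δ₀ ∧ ∃ L₀ : ℕ, ∀ (n : ℕ) [NeZero n], L₀ ≤ n →
        ∀ K : ℝ, K₀ ≤ K → K ≤ δ₀ * (n : ℝ) ^ d →
          mn (tr J : (Fin d → ZMod n) → (Fin d → ZMod n) → ℝ) t (fun g => |mas K g - m|) ≤ ε) ∧
      (∀ (k : ℕ) (f : (Fin k → ℝ) → ℝ), Continuous f → (∃ B, ∀ u, |f u| ≤ B) →
        Tendsto (fun L : ℕ => mn (tr J : (Fin d → ZMod (L + 1)) → (Fin d → ZMod (L + 1)) → ℝ) t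
          (fun g => f (fun i => top (frac g) i))) atTop
          (𝓝 (pdm (fun u : Fin k → ℝ => f (fun i => m * u i))))) := by
  obtain ⟨α, m, hm0, hm1, hα, hmα, hαm⟩ := h.al hGeo hd t ht
  refine ⟨α, m, hm0, hm1, hα, hαm, hmα, ?_, ?_⟩
  · intro ε hε
    obtain ⟨K₀, δ₀, h1, h2, L₀, H⟩ := core hL hKer h hd hσ hσd t ht α m hα hmα
      hαm 0 (fun _ => 0) continuous_const 0 (fun _ => by simp) ε hε
    exact ⟨K₀, δ₀, h1, h2, L₀, fun n _ hn => (H n hn).1⟩
  · intro k f hfc hfb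
    obtain ⟨B, hB⟩ := hfb
    rw [Metric.tendsto_atTop]
    intro η hη
    obtain ⟨Λ, hΛ, hnear⟩ := Pool.Agent.TH268.PD.pdm_near k f hfc B hB (η / 4) (by positivity)
    obtain ⟨K₀, δ₀, h1, h2, L₀, H⟩ := core hL hKer h hd hσ hσd t ht α m hα hmα
      hαm k f hfc B hB (η / (4 * (Λ + 1))) (by positivity)
    refine ⟨L₀, fun L hL => ?_⟩
    obtain ⟨h3, K, hK1, hK2, h4⟩ := H (L + 1) (by omega)
    have h5 := h3 K hK1 hK2
    have hT0 : ∀ x y : Fin d → ZMod (L + 1), 0 ≤ tr J x y := fun x y => h.tr_nonneg x y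
    have h6 : |mn (tr J : (Fin d → ZMod (L + 1)) → (Fin d → ZMod (L + 1)) → ℝ) t
        (fun g => pdm (fun u : Fin k → ℝ => f (fun i => mas K g * u i))) -
        pdm (fun u : Fin k → ℝ => f (fun i => m * u i))| ≤ η / 4 + Λ * (η / (4 * (Λ + 1))) := by
      have e1 : mn (tr J : (Fin d → ZMod (L + 1)) → (Fin d → ZMod (L + 1)) → ℝ) t
          (fun g => pdm (fun u : Fin k → ℝ => f (fun i => mas K g * u i))) -
          pdm (fun u : Fin k → ℝ => f (fun i => m * u i)) =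
          mn (tr J : (Fin d → ZMod (L + 1)) → (Fin d → ZMod (L + 1)) → ℝ) t
          (fun g => pdm (fun u : Fin k → ℝ => f (fun i => mas K g * u i)) -
            pdm (fun u : Fin k → ℝ => f (fun i => m * u i))) := by
        rw [mn_sub, mn_const hT0 ht.le]
      rw [e1]
      refine (mn_abs hT0 ht.le _).trans ?_
      have h7 : ∀ g : Perm (Fin d → ZMod (L + 1)),
          |pdm (fun u : Fin k → ℝ => f (fun i => mas K g * u i)) -
            pdm (fun u : Fin k → ℝ => f (fun i => m * u i))| ≤ η / 4 + Λ * |mas K g - m| :=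
        fun g => hnear (mas K g) m (Pool.Agent.TH268.PD.mas_nonneg _ _)
          (Pool.Agent.TH268.PD.mas_le_one _ _) hm0 hm1
      refine (mn_mono hT0 ht.le h7).trans ?_
      rw [mn_add, mn_const hT0 ht.le]
      refine add_le_add le_rfl ?_
      have e2 : mn (tr J : (Fin d → ZMod (L + 1)) → (Fin d → ZMod (L + 1)) → ℝ) t
          (fun g => Λ * |mas K g - m|) = Λ * mn (tr J) t
            (fun g : Perm (Fin d → ZMod (L + 1)) => |mas K g - m|) := by
        unfold mn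
        rw [Finset.mul_sum]
        exact Finset.sum_congr rfl fun g _ => by ring
      rw [e2]
      exact mul_le_mul_of_nonneg_left h5 hΛ
    have h7 : (Λ + 1) * (η / (4 * (Λ + 1))) = η / 4 := by field_simp
    have h8 : 0 < η / (4 * (Λ + 1)) := by positivity
    have h9 := abs_sub_le (mn (tr J : (Fin d → ZMod (L + 1)) → (Fin d → ZMod (L + 1)) → ℝ) t
      (fun g => f (fun i => top (frac g) i)))
      (mn (tr J : (Fin d → ZMod (L + 1)) → (Fin d → ZMod (L + 1)) → ℝ) t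
        (fun g => pdm (fun u : Fin k → ℝ => f (fun i => mas K g * u i))))
      (pdm (fun u : Fin k → ℝ => f (fun i => m * u i)))
    rw [Real.dist_eq]
    nlinarith

/-- the exponent of the Hölder continuity -/
theorem gam_eq (hd : 1 ≤ d) (hσ : 0 < σ) :
    ee d σ / (1 + ee d σ) = ((d : ℝ) - σ) / (5 * d + σ) := by
  unfold ee
  have : (1 : ℝ) ≤ d := by exact_mod_cast hd
  have h1 : 0 < 2 * (d : ℝ) + σ := by positivity
  have h2 : 0 < 5 * (d : ℝ) + σ := by positivity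
  have h3 : 1 + ((d : ℝ) - σ) / (2 * (2 * d + σ)) = (5 * d + σ) / (2 * (2 * d + σ)) := by
    field_simp
    ring
  rw [h3, div_div_div_cancel_right₀ (by positivity)]

/-- **All times.** -/
theorem all_times (hL : Lnmt) (hKer : Ker) (hGeo : Geo) (h : SM d σ lam S J) (hd : 1 ≤ d)
    (hσ : 0 < σ) (hσd : σ < d) :
    ∃ (m : ℝ → ℝ) (a : ℝ → ℝ → ℝ), (∀ t, 0 < t → 0 ≤ m t ∧ m t ≤ 1 ∧
      (∀ K, 0 ≤ K → Tendsto (fun L : ℕ => aa J t K (L + 1)) atTop (𝓝 (a t K))) ∧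
      Tendsto (a t) atTop (𝓝 (m t)) ∧ (∀ K, 0 ≤ K → m t ≤ a t K) ∧
      (∀ ε : ℝ, 0 < ε → ∃ K₀ δ₀ : ℝ, 1 ≤ K₀ ∧ 0 < δ₀ ∧ ∃ L₀ : ℕ, ∀ (n : ℕ) [NeZero n], L₀ ≤ n →
        ∀ K : ℝ, K₀ ≤ K → K ≤ δ₀ * (n : ℝ) ^ d →
          mn (tr J : (Fin d → ZMod n) → (Fin d → ZMod n) → ℝ) t (fun g => |mas K g - m t|) ≤ ε) ∧
      (∀ (k : ℕ) (f : (Fin k → ℝ) → ℝ), Continuous f → (∃ B, ∀ u, |f u| ≤ B) →
        Tendsto (fun L : ℕ => mn (tr J : (Fin d → ZMod (L + 1)) → (Fin d → ZMod (L + 1)) → ℝ) t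
          (fun g => f (fun i => top (frac g) i))) atTop
          (𝓝 (pdm (fun u : Fin k → ℝ => f (fun i => m t * u i)))))) ∧
      (∀ t₀ : ℝ, 0 < t₀ → ∃ C : ℝ, ∀ t, t₀ ≤ t → ∀ K, 1 ≤ K →
        a t K ≤ m t + C * K ^ (-ee d σ)) ∧
      (∃ C : ℝ, ∀ t t' : ℝ, 0 ≤ t → 0 ≤ t' →
        |m t - m t'| ≤ C * |t - t'| ^ (((d : ℝ) - σ) / (5 * d + σ))) ∧
      (∀ S t : ℝ, (∀ s : Finset (Fin d → ℤ), 0 ∉ s → ∑ z ∈ s, J z ≤ S) → t * S < 1 →
        m t = 0) ∧
      Tendsto m atTop (𝓝 1) := by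
  have hd1 : (1 : ℝ) ≤ d := by exact_mod_cast hd
  have he := ee_pos hd hσ hσd
  have h0 : ∀ t : ℝ, ∃ (α : ℝ → ℝ) (m : ℝ), (0 < t → 0 ≤ m ∧ m ≤ 1 ∧
      (∀ K, 0 ≤ K → Tendsto (fun L : ℕ => aa J t K (L + 1)) atTop (𝓝 (α K))) ∧
      Tendsto α atTop (𝓝 m) ∧ (∀ K, 0 ≤ K → m ≤ α K) ∧
      (∀ ε : ℝ, 0 < ε → ∃ K₀ δ₀ : ℝ, 1 ≤ K₀ ∧ 0 < δ₀ ∧ ∃ L₀ : ℕ, ∀ (n : ℕ) [NeZero n], L₀ ≤ n →
        ∀ K : ℝ, K₀ ≤ K → K ≤ δ₀ * (n : ℝ) ^ d →
          mn (tr J : (Fin d → ZMod n) → (Fin d → ZMod n) → ℝ) t (fun g => |mas K g - m|) ≤ ε) ∧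
      (∀ (k : ℕ) (f : (Fin k → ℝ) → ℝ), Continuous f → (∃ B, ∀ u, |f u| ≤ B) →
        Tendsto (fun L : ℕ => mn (tr J : (Fin d → ZMod (L + 1)) → (Fin d → ZMod (L + 1)) → ℝ) t
          (fun g => f (fun i => top (frac g) i))) atTop
          (𝓝 (pdm (fun u : Fin k → ℝ => f (fun i => m * u i)))))) ∧ (t ≤ 0 → m = 0) := by
    intro t
    by_cases ht : 0 < t
    · obtain ⟨α, m, H⟩ := fixed hL hKer hGeo h hd hσ hσd t ht
      exact ⟨α, m, fun _ => H, fun h' => absurd h' (not_le.2 ht)⟩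
    · exact ⟨fun _ => 0, 0, fun h' => absurd h' ht, fun _ => rfl⟩
  choose a m hm hneg using h0
  have hm01 : ∀ t, 0 ≤ m t ∧ m t ≤ 1 := by
    intro t
    by_cases ht : 0 < t
    · exact ⟨(hm t ht).1, (hm t ht).2.1⟩
    · rw [hneg t (not_lt.1 ht)]
      exact ⟨le_rfl, zero_le_one⟩
  have hsmall : ∀ S t : ℝ, (∀ s : Finset (Fin d → ℤ), 0 ∉ s → ∑ z ∈ s, J z ≤ S) → t * S < 1 →
      m t = 0 := by
    intro S t hS hq
    by_cases ht : 0 < t
    · obtain ⟨h1, h2, h3, h4, h5, -, -⟩ := hm t ht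
      refine le_antisymm ?_ h1
      have hq0 : 0 < 1 - t * S := by linarith
      have h6 : ∀ K : ℝ, 0 < K → m t ≤ 1 / (1 - t * S) / K := fun K hK =>
        (h5 K hK.le).trans (le_of_tendsto' (h3 K hK.le) fun L =>
          small_aa' h.tr_nonneg S hS t ht hq K hK (L + 1))
      have h7 : Tendsto (fun K : ℝ => 1 / (1 - t * S) / K) atTop (𝓝 0) :=
        Tendsto.div_atTop tendsto_const_nhds tendsto_id
      exact ge_of_tendsto h7 (Filter.eventually_atTop.2 ⟨1, fun K hK => h6 K (by linarith)⟩)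
    · exact hneg t (not_lt.1 ht)
  have htail : ∀ t₀ : ℝ, 0 < t₀ → ∃ C : ℝ, 0 < C ∧ ∀ t, t₀ ≤ t → ∀ K, 1 ≤ K →
      a t K ≤ m t + C * K ^ (-ee d σ) := by
    intro t₀ ht₀
    obtain ⟨C, hC, H⟩ := tail hL hKer h hd hσ hσd t₀ ht₀
    refine ⟨C, hC, fun t ht K hK => ?_⟩
    obtain ⟨h1, h2, h3, h4, h5, -, -⟩ := hm t (lt_of_lt_of_le ht₀ ht)
    exact H t ht (a t) (m t) h1 h3 h4 K hK
  refine ⟨m, a, hm, fun t₀ ht₀ => ?_, ?_, hsmall, ?_⟩
  · obtain ⟨C, -, H⟩ := htail t₀ ht₀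
    exact ⟨C, H⟩
  · obtain ⟨S', hS'⟩ : ∃ S' : ℝ, S' = S + 1 := ⟨_, rfl⟩
    have hS := h.S_nonneg
    have hS'0 : 0 < S' := by linarith
    have hsum' : ∀ s : Finset (Fin d → ℤ), 0 ∉ s → ∑ z ∈ s, J z ≤ S' := fun s hs =>
      (h.sum s hs).trans (by linarith)
    obtain ⟨t₀, ht₀⟩ : ∃ t₀ : ℝ, t₀ = 1 / (2 * S') := ⟨_, rfl⟩
    have ht₀0 : 0 < t₀ := by rw [ht₀]; positivity
    obtain ⟨C, hC, HC⟩ := htail t₀ ht₀0
    obtain ⟨γ, hγ⟩ : ∃ γ : ℝ, γ = ee d σ / (1 + ee d σ) := ⟨_, rfl⟩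
    have hγ0 : 0 < γ := by rw [hγ]; positivity
    rw [← gam_eq hd hσ, ← hγ]
    obtain ⟨D, hD⟩ : ∃ D : ℝ, D = S + C + 1 + (2 * S') ^ γ := ⟨_, rfl⟩
    have hpS : 0 < (2 * S') ^ γ := by positivity
    have hone : ∀ t t' : ℝ, m t - m t' ≤ 1 := fun t t' => by
      linarith [(hm01 t).2, (hm01 t').1]
    -- one side, times at least `t₀`
    have hside : ∀ t t' : ℝ, t₀ ≤ t → t₀ ≤ t' → m t - m t' ≤ D * |t - t'| ^ γ := by
      intro t t' ht ht'
      by_cases heq : t = t'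
      · rw [heq, sub_self, sub_self, abs_zero, Real.zero_rpow hγ0.ne', mul_zero]
      obtain ⟨δ, hδ⟩ : ∃ δ : ℝ, δ = |t - t'| := ⟨_, rfl⟩
      have hδ0 : 0 < δ := by rw [hδ]; exact abs_pos.2 (sub_ne_zero.2 heq)
      rw [← hδ]
      have hD1 : 1 ≤ D := by rw [hD]; linarith
      by_cases hδ1 : δ ≤ 1
      · obtain ⟨K, hK⟩ : ∃ K : ℝ, K = δ ^ (-(1 / (1 + ee d σ))) := ⟨_, rfl⟩
        have hK1 : 1 ≤ K := by
          rw [hK]
          refine Real.one_le_rpow_of_pos_of_le_one_of_nonpos hδ0 hδ1 ?_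
          rw [neg_nonpos]
          positivity
        have hK0 : 0 < K := by linarith
        obtain ⟨-, -, g3, -, g5, -, -⟩ := hm t (lt_of_lt_of_le ht₀0 ht)
        obtain ⟨-, -, g3', -, -, -, -⟩ := hm t' (lt_of_lt_of_le ht₀0 ht')
        have h1 : |a t K - a t' K| ≤ S * K * δ := by
          rw [hδ]
          refine le_of_tendsto' ((g3 K hK0.le).sub (g3' K hK0.le)).abs fun L => ?_
          exact aa_time h (lt_of_lt_of_le ht₀0 ht) (lt_of_lt_of_le ht₀0 ht') hK0.le (L + 1)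
        have h2 := g5 K hK0.le
        have h3 := HC t' ht' K hK1
        have h4 : K * δ = δ ^ γ := by
          have h5 : δ ^ (1 : ℝ) = δ := Real.rpow_one δ
          calc K * δ = δ ^ (-(1 / (1 + ee d σ))) * δ ^ (1 : ℝ) := by rw [h5, hK]
            _ = δ ^ γ := by
              rw [← Real.rpow_add hδ0, hγ]
              congr 1
              field_simp
              ring
        have h5 : K ^ (-ee d σ) = δ ^ γ := by
          rw [hK, ← Real.rpow_mul hδ0.le, hγ]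
          congr 1
          field_simp
        rw [h5] at h3
        have h6 : S * K * δ = S * δ ^ γ := by rw [← h4]; ring
        rw [h6] at h1
        have h7 := (abs_le.1 h1).2
        have h8 : 0 ≤ δ ^ γ := by positivity
        have h9 : D * δ ^ γ = S * δ ^ γ + C * δ ^ γ + (1 + (2 * S') ^ γ) * δ ^ γ := by
          rw [hD]; ring
        have h10 : 0 ≤ (1 + (2 * S') ^ γ) * δ ^ γ := by positivity
        linarith
      · rw [not_le] at hδ1
        have h1 : 1 ≤ δ ^ γ := Real.one_le_rpow hδ1.le hγ0.le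
        have h2 := hone t t'
        nlinarith
    -- one time is small
    have hsm : ∀ t t' : ℝ, 0 ≤ t → 0 ≤ t' → t' < t₀ → |m t - m t'| ≤ D * |t - t'| ^ γ := by
      intro t t' ht ht' hlt
      have h1 : m t' = 0 := hsmall S' t' hsum' (by
        have : t' * S' < t₀ * S' := mul_lt_mul_of_pos_right hlt hS'0
        have h2 : t₀ * S' = 1 / 2 := by rw [ht₀]; field_simp
        linarith)
      have hD0 : 0 < D := by rw [hD]; positivity
      by_cases h2 : t * S' < 1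
      · rw [h1, hsmall S' t hsum' h2, sub_self, abs_zero]
        positivity
      · rw [not_lt] at h2
        have h3 : t₀ ≤ |t - t'| := by
          have h4 : 2 * t₀ ≤ t := by
            rw [ht₀]
            have h5 : 2 * (1 / (2 * S')) = 1 / S' := by field_simp
            rw [h5, div_le_iff₀ hS'0]
            exact h2
          rw [abs_of_nonneg (by linarith)]
          linarith
        have h4 : 1 ≤ (2 * S') ^ γ * |t - t'| ^ γ := by
          rw [← Real.mul_rpow (by positivity) (abs_nonneg _)]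
          refine Real.one_le_rpow ?_ hγ0.le
          have h5 : 2 * S' * t₀ = 1 := by rw [ht₀]; field_simp
          rw [← h5]
          exact mul_le_mul_of_nonneg_left h3 (by positivity)
        have h5 : |m t - m t'| ≤ 1 := by
          rw [abs_le]
          constructor <;> linarith [hone t t', hone t' t]
        have h6 : (2 * S') ^ γ * |t - t'| ^ γ ≤ D * |t - t'| ^ γ := by
          refine mul_le_mul_of_nonneg_right ?_ (by positivity)
          rw [hD]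
          linarith
        linarith
    refine ⟨D, fun t t' ht ht' => ?_⟩
    by_cases h1 : t' < t₀
    · exact hsm t t' ht ht' h1
    · by_cases h2 : t < t₀
      · rw [abs_sub_comm, abs_sub_comm t t']
        exact hsm t' t ht' ht h2
      · rw [not_lt] at h1 h2
        rw [abs_le]
        have h3 := hside t t' h2 h1
        have h4 := hside t' t h1 h2
        rw [abs_sub_comm t' t] at h4
        constructor <;> linarith
  · rw [Metric.tendsto_atTop]
    intro θ hθ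
    obtain ⟨t₁, ht₁, H⟩ := large hd hσ hσd h (θ / 2) (by positivity)
    refine ⟨t₁, fun t ht => ?_⟩
    have ht0 : 0 < t := lt_of_lt_of_le ht₁ ht
    obtain ⟨h1, h2, h3, h4, h5, -, -⟩ := hm t ht0
    have h6 : ∀ K : ℝ, 0 ≤ K → 1 - θ / 2 ≤ a t K := by
      intro K hK
      obtain ⟨L₀, hL₀⟩ := H t ht K
      exact ge_of_tendsto (h3 K hK) (Filter.eventually_atTop.2 ⟨L₀, fun L hL =>
        hL₀ (L + 1) (by omega)⟩)
    have h7 : 1 - θ / 2 ≤ m t :=
      ge_of_tendsto h4 (Filter.eventually_atTop.2 ⟨0, fun K hK => h6 K hK⟩)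
    rw [Real.dist_eq, abs_sub_comm, abs_of_nonneg (by linarith)]
    linarith

/-- the critical time -/
theorem crit {m : ℝ → ℝ} {γ C S : ℝ} (hm0 : ∀ t, 0 ≤ m t) (hγ : 0 < γ)
    (hH : ∀ t t' : ℝ, 0 ≤ t → 0 ≤ t' → |m t - m t'| ≤ C * |t - t'| ^ γ)
    (hS : ∀ t : ℝ, t * S < 1 → m t = 0) (h1 : Tendsto m atTop (𝓝 1)) :
    ∃ β : ℝ, 0 < β ∧ 1 ≤ β * S ∧ (∀ t, t ≤ β → m t = 0) ∧
      ∀ δ : ℝ, 0 < δ → ∃ t, β < t ∧ t < β + δ ∧ 0 < m t := by
  obtain ⟨P, hP⟩ : ∃ P : Set ℝ, P = {t : ℝ | 0 < m t} := ⟨_, rfl⟩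
  have hne : P.Nonempty := by
    obtain ⟨t, ht⟩ := (h1.eventually_const_lt (show (0 : ℝ) < 1 by norm_num)).exists
    exact ⟨t, by rw [hP]; exact ht⟩
  have hmem : ∀ t ∈ P, 1 ≤ t * S := by
    intro t ht
    by_contra hlt
    rw [not_le] at hlt
    have h2 := hS t hlt
    rw [hP] at ht
    have h3 : 0 < m t := ht
    linarith
  have hS0 : 0 < S := by
    obtain ⟨t, ht, ht0⟩ := ((h1.eventually_const_lt (show (0 : ℝ) < 1 by norm_num)).and
      (Filter.eventually_gt_atTop (0 : ℝ))).exists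
    have h2 := hmem t (by rw [hP]; exact ht)
    by_contra hcon
    rw [not_lt] at hcon
    nlinarith
  have hlow : ∀ t ∈ P, 1 / S ≤ t := by
    intro t ht
    rw [div_le_iff₀ hS0]
    exact hmem t ht
  have hbd : BddBelow P := ⟨1 / S, hlow⟩
  obtain ⟨β, hβ⟩ : ∃ β : ℝ, β = sInf P := ⟨_, rfl⟩
  have hβS : 1 / S ≤ β := by rw [hβ]; exact le_csInf hne hlow
  have hβ0 : 0 < β := lt_of_lt_of_le (by positivity) hβS
  have hzero : ∀ t, t < β → m t = 0 := by
    intro t ht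
    by_contra hcon
    have h2 : t ∈ P := by
      rw [hP]
      exact lt_of_le_of_ne (hm0 t) (Ne.symm hcon)
    have h3 := csInf_le hbd h2
    rw [← hβ] at h3
    linarith
  have hβz : m β = 0 := by
    refine le_antisymm ?_ (hm0 β)
    have h2 : Tendsto (fun s : ℝ => C * s ^ γ) (𝓝[>] 0) (𝓝 0) := by
      have h3 : Tendsto (fun s : ℝ => s ^ γ) (𝓝[>] 0) (𝓝 ((0 : ℝ) ^ γ)) :=
        ((Real.continuousAt_rpow_const 0 γ (Or.inr hγ.le)).tendsto).mono_left nhdsWithin_le_nhds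
      rw [Real.zero_rpow hγ.ne'] at h3
      have h4 := h3.const_mul C
      rwa [mul_zero] at h4
    refine ge_of_tendsto h2 ?_
    filter_upwards [Ioo_mem_nhdsGT hβ0] with s hs
    have h3 := hH β (β - s) hβ0.le (by linarith [hs.2])
    rw [hzero (β - s) (by linarith [hs.1]), sub_zero, sub_sub_cancel, abs_of_pos hs.1,
      abs_of_nonneg (hm0 β)] at h3
    exact h3
  refine ⟨β, hβ0, ?_, fun t ht => ?_, fun δ hδ => ?_⟩
  · rwa [div_le_iff₀ hS0] at hβS
  · rcases lt_or_eq_of_le ht with h2 | h2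
    · exact hzero t h2
    · rw [h2]
      exact hβz
  · obtain ⟨t, ht, hlt⟩ := exists_lt_of_csInf_lt hne (show sInf P < β + δ by
      rw [← hβ]
      linarith)
    have h2 := csInf_le hbd ht
    rw [← hβ] at h2
    rw [hP] at ht
    have h3 : 0 < m t := ht
    refine ⟨t, lt_of_le_of_ne h2 ?_, hlt, h3⟩
    rintro rfl
    linarith

end

end Pool.Agent.N795.LN
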