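import Pool.Agent.N795.LN.Stm
import Pool.Agent.N795.ST.Bas
import Pool.Agent.N795.ST.Mid

/-!
# The window bound from the three ingredients
-/

set_option autoImplicit false

namespace Pool.Agent.N795.LN

open Finset Equiv
open Pool.Agent.W805.LR (len cnt)
open Pool.Agent.TH268.PD (law mas)
open Pool.Agent.N795.ST (win mn mn_mono mn_const mn_add mn_sub mn_nonneg mn_le_const win_nonneg
  win_le_one win_sum)

section

variable {V : Type} [Fintype V] [DecidableEq V]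

/-- the rates with `U` multiplied by `exp θ` -/
noncomputable def Jt (J U : V → V → ℝ) (θ : ℝ) (x y : V) : ℝ := J x y + Real.exp θ * U x y

theorem Jt_nonneg {J U : V → V → ℝ} (hJ : ∀ x y, 0 ≤ J x y) (hU : ∀ x y, 0 ≤ U x y) (θ : ℝ)
    (x y : V) : 0 ≤ Jt J U θ x y :=
  add_nonneg (hJ x y) (mul_nonneg (Real.exp_pos θ).le (hU x y))

theorem mn_smul (J : V → V → ℝ) (t c : ℝ) (F : Perm V → ℝ) :
    mn J t (fun g => c * F g) = c * mn J t F := by
  unfold mn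
  rw [Finset.mul_sum]
  exact Finset.sum_congr rfl fun g _ => by ring

theorem mn_sq {J : V → V → ℝ} (hJ : ∀ x y, 0 ≤ J x y) {t : ℝ} (ht : 0 ≤ t) (F : Perm V → ℝ) :
    mn J t F ^ 2 ≤ mn J t (fun g => F g ^ 2) := by
  obtain ⟨p, hp⟩ : ∃ p, p = mn J t F := ⟨_, rfl⟩
  have h1 : 0 ≤ mn J t (fun g => (F g ^ 2 - 2 * p * F g) + p ^ 2) :=
    mn_nonneg hJ ht fun g => by nlinarith [sq_nonneg (F g - p)]
  rw [mn_add, mn_sub, mn_smul, mn_const hJ ht, ← hp] at h1
  rw [← hp]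
  nlinarith

theorem cosh_bound {θ : ℝ} (h : θ ^ 2 ≤ 1) :
    Real.exp θ + (Real.exp θ)⁻¹ - 2 ≤ 2 * θ ^ 2 := by
  have h1 := Real.cosh_le_exp_half_sq θ
  have h2 : Real.exp θ + (Real.exp θ)⁻¹ = 2 * Real.cosh θ := by
    rw [Real.cosh_eq, Real.exp_neg]
    ring
  obtain ⟨y, hy⟩ : ∃ y, y = θ ^ 2 / 2 := ⟨_, rfl⟩
  have hy0 : 0 ≤ y := by rw [hy]; positivity
  have hy1 : y ≤ 1 / 2 := by rw [hy]; linarith
  rw [← hy] at h1
  have h3 : Real.exp y ≤ 1 + 2 * y := by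
    have h4 : 1 - y ≤ Real.exp (-y) := by
      have := Real.add_one_le_exp (-y)
      linarith
    have h5 : Real.exp y * Real.exp (-y) = 1 := by rw [← Real.exp_add, add_neg_cancel, Real.exp_zero]
    have h6 : 0 < Real.exp y := Real.exp_pos y
    nlinarith
  have h4 : θ ^ 2 = 2 * y := by rw [hy]; ring
  rw [h2, h4]
  linarith

/-- the mean window mass in terms of `prk` -/
theorem mn_win (J : V → V → ℝ) (t K : ℝ) (hK : 0 ≤ K) :
    mn J t (win K (2 * K)) = (∑ v, ∑ k ∈ (range (⌈2 * K⌉₊)).filter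
      (fun k : ℕ => K ≤ k ∧ (k : ℝ) < 2 * K), prk J t v k) / Fintype.card V := by
  unfold mn prk
  simp only [win_sum K (2 * K) hK (by linarith)]
  rw [Finset.sum_congr rfl fun g _ => (mul_div_assoc (law J t g) _ _).symm, ← Finset.sum_div]
  congr 1
  rw [Finset.sum_congr rfl fun g _ => Finset.mul_sum _ _ _, Finset.sum_comm]
  refine Finset.sum_congr rfl fun v _ => ?_
  rw [Finset.sum_congr rfl fun g _ => Finset.mul_sum _ _ _, Finset.sum_comm]

theorem prk_nonneg {J : V → V → ℝ} (hJ : ∀ x y, 0 ≤ J x y) {t : ℝ} (ht : 0 ≤ t) (v : V) (k : ℕ) :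
    0 ≤ prk J t v k :=
  Finset.sum_nonneg fun g _ => mul_nonneg ((Pool.Agent.TH268.PD.law_prob J t ht hJ).1 g)
    (by split_ifs <;> norm_num)

/-- the window mass is almost convex in `θ` -/
theorem pair (hS : Star) {J U : V → V → ℝ} (hJ : ∀ x y, 0 ≤ J x y) (hU : ∀ x y, 0 ≤ U x y)
    {t κ K θ : ℝ} (ht : 0 ≤ t) (hκ : 0 ≤ κ) (hK : 0 ≤ K)
    (hrow : ∀ x, ∑ y, (U x y + U y x) / 2 ≤ κ) (hθ1 : θ ^ 2 ≤ 1) (hθ : t * κ * K * θ ^ 2 ≤ 1) :
    2 * mn (Jt J U 0) t (win K (2 * K)) ≤ Real.exp 2 * (mn (Jt J U θ) t (win K (2 * K)) +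
      mn (Jt J U (-θ)) t (win K (2 * K))) := by
  rw [mn_win _ _ _ hK, mn_win _ _ _ hK, mn_win _ _ _ hK, ← add_div, ← mul_div_assoc,
    ← mul_div_assoc]
  refine div_le_div_of_nonneg_right ?_ (Nat.cast_nonneg _)
  rw [← Finset.sum_add_distrib, Finset.mul_sum, Finset.mul_sum]
  refine Finset.sum_le_sum fun v _ => ?_
  rw [← Finset.sum_add_distrib, Finset.mul_sum, Finset.mul_sum]
  refine Finset.sum_le_sum fun k hk => ?_
  have hk' : (k : ℝ) ≤ 2 * K := by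
    rw [Finset.mem_filter] at hk
    exact hk.2.2.le
  have h1 := hS V J U t κ (Real.exp θ) v k hJ hU ht hκ (Real.exp_pos θ) hrow
  have e0 : (fun x y => J x y + U x y) = Jt J U 0 := by
    funext x y
    unfold Jt
    rw [Real.exp_zero, one_mul]
  have e1 : (fun x y => J x y + Real.exp θ * U x y) = Jt J U θ := rfl
  have e2 : (fun x y => J x y + (Real.exp θ)⁻¹ * U x y) = Jt J U (-θ) := by
    funext x y
    unfold Jt
    rw [Real.exp_neg]
  rw [e0, e1, e2] at h1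
  refine h1.trans (mul_le_mul_of_nonneg_right ?_ (add_nonneg
    (prk_nonneg (Jt_nonneg hJ hU θ) ht v k) (prk_nonneg (Jt_nonneg hJ hU (-θ)) ht v k)))
  rw [Real.exp_le_exp]
  have h2 := cosh_bound hθ1
  have h3 : t * k * κ * (Real.exp θ + (Real.exp θ)⁻¹ - 2) / 2 ≤ t * k * κ * (2 * θ ^ 2) / 2 := by
    refine div_le_div_of_nonneg_right ?_ two_pos.le
    exact mul_le_mul_of_nonneg_left h2 (by positivity)
  refine h3.trans ?_
  have h4 : t * k * κ * (2 * θ ^ 2) / 2 = k * (t * κ * θ ^ 2) := by ring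
  rw [h4]
  have h5 : (k : ℝ) * (t * κ * θ ^ 2) ≤ 2 * K * (t * κ * θ ^ 2) :=
    mul_le_mul_of_nonneg_right hk' (by positivity)
  refine h5.trans ?_
  linarith

/-- the lower bound for the increments -/
theorem incr (hD : Det) [Nonempty V] {U : V → V → ℝ} (hU : ∀ x y, 0 ≤ U x y) {u b K : ℝ}
    (hUu : ∀ x y, U x y ≤ u) (hu : 0 < u) (hK : 1 ≤ K)
    (hW : ∀ W : Finset V, u * ((W.card : ℝ) ^ 2 * b / Fintype.card V - W.card) ≤
      ∑ x ∈ W, ∑ y ∈ W, U x y) (g₁ g₂ : Perm V) :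
    u * K * b * win K (2 * K) (g₁ * g₂) ^ 2 - 7 * u * K ^ 2 ≤
      ∑ x, ∑ y, U x y / 2 * (mas (2 * K) (g₁ * swap x y * g₂) - mas (2 * K) (g₁ * g₂)) := by
  classical
  have hN : (0 : ℝ) < Fintype.card V := by exact_mod_cast Fintype.card_pos
  refine le_trans ?_ (hD V U u K g₁ g₂ hU hUu (by linarith))
  obtain ⟨W, hWdef⟩ : ∃ W : Finset V, W = univ.filter fun x =>
    K ≤ len (g₁ * g₂) (g₂⁻¹ x) ∧ len (g₁ * g₂) (g₂⁻¹ x) < 2 * K := ⟨_, rfl⟩
  have e1 : (∑ x, ∑ y, (if (K ≤ len (g₁ * g₂) (g₂⁻¹ x) ∧ len (g₁ * g₂) (g₂⁻¹ x) < 2 * K) ∧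
          (K ≤ len (g₁ * g₂) (g₂⁻¹ y) ∧ len (g₁ * g₂) (g₂⁻¹ y) < 2 * K)
        then U x y else 0)) = ∑ x ∈ W, ∑ y ∈ W, U x y := by
    rw [hWdef, Finset.sum_filter]
    refine Finset.sum_congr rfl fun x _ => ?_
    by_cases hx : K ≤ len (g₁ * g₂) (g₂⁻¹ x) ∧ len (g₁ * g₂) (g₂⁻¹ x) < 2 * K
    · rw [if_pos hx, Finset.sum_filter]
      refine Finset.sum_congr rfl fun y _ => ?_
      by_cases hy : K ≤ len (g₁ * g₂) (g₂⁻¹ y) ∧ len (g₁ * g₂) (g₂⁻¹ y) < 2 * K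
      · rw [if_pos ⟨hx, hy⟩, if_pos hy]
      · rw [if_neg (fun h => hy h.2), if_neg hy]
    · rw [if_neg hx]
      refine Finset.sum_eq_zero fun y _ => ?_
      rw [if_neg (fun h => hx h.1)]
  have e2 : win K (2 * K) (g₁ * g₂) = (W.card : ℝ) / Fintype.card V := by
    unfold win mas cnt
    rw [← sub_div, ← Finset.sum_sub_distrib]
    congr 1
    rw [hWdef, Finset.card_filter, Nat.cast_sum,
      ← Equiv.sum_comp (g₂⁻¹ : Perm V) (fun v => ((if K ≤ len (g₁ * g₂) v then (1 : ℝ) else 0) -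
        (if 2 * K ≤ len (g₁ * g₂) v then (1 : ℝ) else 0)))]
    refine Finset.sum_congr rfl fun x _ => ?_
    by_cases h1 : K ≤ len (g₁ * g₂) (g₂⁻¹ x)
    · by_cases h2 : 2 * K ≤ len (g₁ * g₂) (g₂⁻¹ x)
      · rw [if_pos h1, if_pos h2, if_neg (fun h => absurd h.2 (not_lt.2 h2))]
        simp
      · rw [if_pos h1, if_neg h2, if_pos ⟨h1, not_le.1 h2⟩]
        simp
    · have h2 : ¬ 2 * K ≤ len (g₁ * g₂) (g₂⁻¹ x) := fun h => h1 (by linarith)
      rw [if_neg h1, if_neg h2, if_neg (fun h => h1 h.1)]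
      simp
  rw [e1]
  have h1 := mul_le_mul_of_nonneg_left (hW W) (show 0 ≤ K / (Fintype.card V : ℝ) by positivity)
  have hw1 := win_le_one K (2 * K) (g₁ * g₂)
  rw [e2] at hw1 ⊢
  obtain ⟨w, hw⟩ : ∃ w, w = (W.card : ℝ) / Fintype.card V := ⟨_, rfl⟩
  rw [← hw] at hw1 ⊢
  have h2 : K / (Fintype.card V : ℝ) * (u * ((W.card : ℝ) ^ 2 * b / Fintype.card V - W.card)) =
      u * K * b * w ^ 2 - u * K * w := by
    rw [hw]
    field_simp
  rw [h2] at h1
  have h3 : u * K * w ≤ u * K ^ 2 := by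
    have h4 : u * K * w ≤ u * K * 1 := mul_le_mul_of_nonneg_left hw1 (by positivity)
    have h5 : 0 < u * K := by positivity
    nlinarith
  linarith

/-- one step of the grid -/
theorem step (hO : OneStep) (hD : Det) [Nonempty V] {J U : V → V → ℝ} (hJ : ∀ x y, 0 ≤ J x y)
    (hU : ∀ x y, 0 ≤ U x y) {t u b K : ℝ}
    (hUu : ∀ x y, U x y ≤ u) (ht : 0 ≤ t) (hu : 0 < u) (hK : 1 ≤ K)
    (hW : ∀ W : Finset V, u * ((W.card : ℝ) ^ 2 * b / Fintype.card V - W.card) ≤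
      ∑ x ∈ W, ∑ y ∈ W, U x y) (θ θ' : ℝ) (hθ : θ ≤ θ') :
    (Real.exp θ' - Real.exp θ) * t * (u * K * b * mn (Jt J U θ) t (fun g => win K (2 * K) g ^ 2) -
      7 * u * K ^ 2) ≤ mn (Jt J U θ') t (mas (2 * K)) - mn (Jt J U θ) t (mas (2 * K)) +
        2 * ((Real.exp θ' - Real.exp θ) * t * ∑ x, ∑ y, U x y / 2) ^ 2 := by
  have h0 : 0 ≤ Real.exp θ' - Real.exp θ := by
    have := Real.exp_le_exp.2 hθ
    linarith
  have h1 := hO V (Jt J U θ) U t (Real.exp θ' - Real.exp θ) (mas (2 * K))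
    (fun g => u * K * b * win K (2 * K) g ^ 2 - 7 * u * K ^ 2) (Jt_nonneg hJ hU θ) hU ht h0
    (fun g => Pool.Agent.TH268.PD.mas_nonneg _ g) (fun g => Pool.Agent.TH268.PD.mas_le_one _ g)
    (fun g₁ g₂ => incr hD hU hUu hu hK hW g₁ g₂)
  have e1 : (fun x y => Jt J U θ x y + (Real.exp θ' - Real.exp θ) * U x y) = Jt J U θ' := by
    funext x y
    unfold Jt
    ring
  have e2 : ∑ g, law (Jt J U θ) t g * (u * K * b * win K (2 * K) g ^ 2 - 7 * u * K ^ 2) =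
      u * K * b * mn (Jt J U θ) t (fun g => win K (2 * K) g ^ 2) - 7 * u * K ^ 2 := by
    have h2 : mn (Jt J U θ) t (fun g => u * K * b * win K (2 * K) g ^ 2 - 7 * u * K ^ 2) =
        u * K * b * mn (Jt J U θ) t (fun g => win K (2 * K) g ^ 2) - 7 * u * K ^ 2 := by
      rw [mn_sub, mn_smul, mn_const (Jt_nonneg hJ hU θ) ht]
    exact h2
  rw [e1, e2] at h1
  unfold mn at h1 ⊢
  linarith

end

/-- **The window bound.** -/
theorem lnmt (hS : Star) (hO : OneStep) (hD : Det) : Lnmt := by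
  refine ⟨7 * Real.exp 6, by positivity, ?_⟩
  intro V _ _ _ J U t u b κ K hJ hU hUu ht hu hb hκ hK htk hrow hW
  have hK0 : 0 < K := by linarith
  obtain ⟨s, hs⟩ : ∃ s : ℝ, s = Real.sqrt (t * κ * K) := ⟨_, rfl⟩
  have hs2 : s ^ 2 = t * κ * K := by rw [hs]; exact Real.sq_sqrt (by positivity)
  have hs0 : 0 < s := by rw [hs]; exact Real.sqrt_pos.2 (by positivity)
  have hs1 : 1 ≤ s := by
    by_contra h
    push Not at h
    nlinarith
  obtain ⟨θ₀, hθ₀⟩ : ∃ θ₀ : ℝ, θ₀ = 1 / s := ⟨_, rfl⟩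
  have hθ₀0 : 0 < θ₀ := by rw [hθ₀]; positivity
  have hθ₀1 : θ₀ ≤ 1 := by
    rw [hθ₀, div_le_one hs0]
    exact hs1
  have hθs : t * κ * K * θ₀ ^ 2 = 1 := by
    rw [← hs2, hθ₀]
    field_simp
  obtain ⟨R, hR⟩ : ∃ R : ℝ, R = ∑ x, ∑ y, U x y / 2 := ⟨_, rfl⟩
  obtain ⟨a, ha⟩ : ∃ a : ℝ → ℝ, a = fun θ => mn (Jt J U θ) t (fun g => win K (2 * K) g ^ 2) :=
    ⟨_, rfl⟩
  obtain ⟨p, hp⟩ : ∃ p : ℝ, p = mn (Jt J U 0) t (win K (2 * K)) := ⟨_, rfl⟩
  have e0 : ∑ g, law (fun x y => J x y + U x y) t g * win K (2 * K) g = p := by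
    have e1 : (fun x y => J x y + U x y) = Jt J U 0 := by
      funext x y
      unfold Jt
      rw [Real.exp_zero, one_mul]
    rw [hp, e1]
    rfl
  rw [e0, ← hs]
  have ha1 : ∀ θ, a θ ≤ 1 := by
    intro θ
    rw [ha]
    refine mn_le_const (Jt_nonneg hJ hU θ) ht.le 1 fun g => ?_
    have h1 := win_le_one K (2 * K) g
    have h2 := win_nonneg (show K ≤ 2 * K by linarith) g
    nlinarith
  -- pairs
  have hpair : ∀ θ : ℝ, |θ| ≤ θ₀ → 2 * (Real.exp (-4) * p ^ 2) ≤ a θ + a (-θ) := by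
    intro θ hθ
    have hθ2 : θ ^ 2 ≤ θ₀ ^ 2 := sq_le_sq' (abs_le.1 hθ).1 (abs_le.1 hθ).2
    have h1 := pair hS hJ hU ht.le hκ.le hK0.le hrow (θ := θ) (by nlinarith) (by
      have : t * κ * K * θ ^ 2 ≤ t * κ * K * θ₀ ^ 2 :=
        mul_le_mul_of_nonneg_left hθ2 (by positivity)
      linarith)
    rw [← hp] at h1
    have h2 := mn_sq (Jt_nonneg hJ hU θ) ht.le (win K (2 * K))
    have h3 := mn_sq (Jt_nonneg hJ hU (-θ)) ht.le (win K (2 * K))
    have hp0 : 0 ≤ p := by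
      rw [hp]
      exact mn_nonneg (Jt_nonneg hJ hU 0) ht.le fun g => win_nonneg (by linarith) g
    rw [ha]
    beta_reduce
    obtain ⟨x, hx⟩ : ∃ x, x = mn (Jt J U θ) t (win K (2 * K)) := ⟨_, rfl⟩
    obtain ⟨y, hy⟩ : ∃ y, y = mn (Jt J U (-θ)) t (win K (2 * K)) := ⟨_, rfl⟩
    rw [← hx] at h1 h2
    rw [← hy] at h1 h3
    have h4 : Real.exp (-4) = (Real.exp 2)⁻¹ ^ 2 := by
      rw [← Real.exp_neg, ← Real.exp_nat_mul]
      norm_num
    have h5 : (Real.exp 2)⁻¹ * (2 * p) ≤ x + y := by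
      rw [inv_mul_le_iff₀ (Real.exp_pos 2)]
      exact h1
    rw [h4]
    have h6 : 0 ≤ (Real.exp 2)⁻¹ * (2 * p) := by positivity
    have h7 : ((Real.exp 2)⁻¹ * (2 * p)) ^ 2 ≤ (x + y) ^ 2 := by
      exact pow_le_pow_left₀ h6 h5 2
    nlinarith [sq_nonneg (x - y)]
  -- the grid
  obtain ⟨X, hX⟩ : ∃ X : ℝ, X = 4 * (Real.exp 1 * θ₀ * t * R) ^ 2 +
    Real.exp (-1) * θ₀ * t * u * K * b := ⟨_, rfl⟩
  obtain ⟨m', hm'⟩ := exists_nat_ge X
  obtain ⟨m, hm⟩ : ∃ m : ℕ, m = m' + 1 := ⟨_, rfl⟩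
  have hmX : X ≤ m := by
    rw [hm]
    push_cast
    linarith
  have hm0 : (0 : ℝ) < m := by rw [hm]; positivity
  obtain ⟨th, hth⟩ : ∃ th : ℕ → ℝ, th = fun j : ℕ => θ₀ * ((j : ℝ) - m) / m := ⟨_, rfl⟩
  have hth1 : ∀ j, th (j + 1) - th j = θ₀ / m := by
    intro j
    rw [hth]
    push_cast
    field_simp
    ring
  have hthr : ∀ j, j ≤ 2 * m → |th j| ≤ θ₀ := by
    intro j hj
    have hj' : (j : ℝ) ≤ 2 * m := by exact_mod_cast hj
    have hj0 : (0 : ℝ) ≤ j := Nat.cast_nonneg j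
    rw [hth]
    beta_reduce
    rw [abs_div, abs_mul, abs_of_pos hθ₀0, abs_of_pos hm0, div_le_iff₀ hm0]
    refine mul_le_mul_of_nonneg_left ?_ hθ₀0.le
    rw [abs_le]
    constructor <;> linarith
  have hup : ∀ j, j < 2 * m → Real.exp (th (j + 1)) - Real.exp (th j) ≤
      Real.exp 1 * (θ₀ / m) := by
    intro j hj
    have h1 := hthr (j + 1) (by omega)
    have h2 : Real.exp (th j) = Real.exp (th (j + 1)) * Real.exp (-(θ₀ / m)) := by
      rw [← Real.exp_add]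
      congr 1
      linarith [hth1 j]
    have h3 : 1 - θ₀ / m ≤ Real.exp (-(θ₀ / m)) := by
      have := Real.add_one_le_exp (-(θ₀ / m))
      linarith
    have h4 : Real.exp (th (j + 1)) ≤ Real.exp 1 := by
      rw [Real.exp_le_exp]
      linarith [(abs_le.1 h1).2]
    have h5 : 0 ≤ θ₀ / m := by positivity
    calc Real.exp (th (j + 1)) - Real.exp (th j) =
        Real.exp (th (j + 1)) * (1 - Real.exp (-(θ₀ / m))) := by rw [h2]; ring
      _ ≤ Real.exp (th (j + 1)) * (θ₀ / m) :=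
        mul_le_mul_of_nonneg_left (by linarith) (Real.exp_pos _).le
      _ ≤ Real.exp 1 * (θ₀ / m) := mul_le_mul_of_nonneg_right h4 h5
  have hlo : ∀ j, j < 2 * m → Real.exp (-1) * (θ₀ / m) ≤
      Real.exp (th (j + 1)) - Real.exp (th j) := by
    intro j hj
    have h1 := hthr j (by omega)
    have h2 : Real.exp (th (j + 1)) = Real.exp (th j) * Real.exp (θ₀ / m) := by
      rw [← Real.exp_add]
      congr 1
      linarith [hth1 j]
    have h3 : θ₀ / m + 1 ≤ Real.exp (θ₀ / m) := Real.add_one_le_exp _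
    have h4 : Real.exp (-1) ≤ Real.exp (th j) := by
      rw [Real.exp_le_exp]
      linarith [(abs_le.1 h1).1]
    have h5 : 0 ≤ θ₀ / m := by positivity
    calc Real.exp (-1) * (θ₀ / m) ≤ Real.exp (th j) * (θ₀ / m) :=
          mul_le_mul_of_nonneg_right h4 h5
      _ ≤ Real.exp (th j) * (Real.exp (θ₀ / m) - 1) :=
        mul_le_mul_of_nonneg_left (by linarith) (Real.exp_pos _).le
      _ = Real.exp (th (j + 1)) - Real.exp (th j) := by rw [h2]; ring
  have ha0 : ∀ θ, 0 ≤ a θ := by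
    intro θ
    rw [ha]
    exact mn_nonneg (Jt_nonneg hJ hU θ) ht.le fun g => sq_nonneg _
  have hR0 : 0 ≤ R := by
    rw [hR]
    exact Finset.sum_nonneg fun x _ => Finset.sum_nonneg fun y _ =>
      div_nonneg (hU x y) two_pos.le
  -- one step
  have hstep : ∀ j, j < 2 * m → (Real.exp (-1) * (θ₀ / m)) * (t * u * K * b) * a (th j) ≤
      (mn (Jt J U (th (j + 1))) t (mas (2 * K)) - mn (Jt J U (th j)) t (mas (2 * K))) +
        (2 * (Real.exp 1 * (θ₀ / m) * t * R) ^ 2 +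
          Real.exp 1 * (θ₀ / m) * (7 * t * u * K ^ 2)) := by
    intro j hj
    have h1 := step hO hD hJ hU hUu ht.le hu hK hW (th j) (th (j + 1)) (by
      have := hth1 j
      have : 0 < θ₀ / m := by positivity
      linarith [hth1 j])
    rw [← hR] at h1
    have h2 := hup j hj
    have h3 := hlo j hj
    obtain ⟨h, hh⟩ : ∃ h, h = Real.exp (th (j + 1)) - Real.exp (th j) := ⟨_, rfl⟩
    have h6 : mn (Jt J U (th j)) t (fun g => win K (2 * K) g ^ 2) = a (th j) := by rw [ha]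
    rw [h6, ← hh] at h1
    rw [← hh] at h2 h3
    have h40 : 0 ≤ Real.exp (-1) * (θ₀ / m) := by positivity
    have h4 : 0 ≤ h := h40.trans h3
    have h5 : 2 * (h * t * R) ^ 2 ≤ 2 * (Real.exp 1 * (θ₀ / m) * t * R) ^ 2 := by
      refine mul_le_mul_of_nonneg_left ?_ two_pos.le
      refine pow_le_pow_left₀ (by positivity) ?_ 2
      exact mul_le_mul_of_nonneg_right (mul_le_mul_of_nonneg_right h2 ht.le) hR0
    have h7 : h * (7 * t * u * K ^ 2) ≤ Real.exp 1 * (θ₀ / m) * (7 * t * u * K ^ 2) :=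
      mul_le_mul_of_nonneg_right h2 (by positivity)
    have h8 : (Real.exp (-1) * (θ₀ / m)) * (t * u * K * b) * a (th j) ≤
        h * (t * u * K * b) * a (th j) :=
      mul_le_mul_of_nonneg_right (mul_le_mul_of_nonneg_right h3 (by positivity)) (ha0 _)
    have h9 : h * t * (u * K * b * a (th j) - 7 * u * K ^ 2) =
      h * (t * u * K * b) * a (th j) - h * (7 * t * u * K ^ 2) := by ring
    rw [h9] at h1
    linarith
  -- sum
  have hsum := Finset.sum_le_sum fun j (hj : j ∈ range (2 * m)) => hstep j (Finset.mem_range.1 hj)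
  rw [Finset.sum_add_distrib, Finset.sum_range_sub (fun j => mn (Jt J U (th j)) t (mas (2 * K))),
    Finset.sum_const, Finset.card_range, nsmul_eq_mul, ← Finset.mul_sum] at hsum
  have hF : mn (Jt J U (th (2 * m))) t (mas (2 * K)) - mn (Jt J U (th 0)) t (mas (2 * K)) ≤ 1 := by
    have h1 := mn_le_const (Jt_nonneg hJ hU (th (2 * m))) ht.le 1
      fun g => Pool.Agent.TH268.PD.mas_le_one (2 * K) g
    have h2 := mn_nonneg (Jt_nonneg hJ hU (th 0)) ht.le
      fun g => Pool.Agent.TH268.PD.mas_nonneg (2 * K) g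
    linarith
  have hA : (2 * m + 1) * (Real.exp (-4) * p ^ 2) - 1 ≤ ∑ j ∈ range (2 * m), a (th j) := by
    have h1 : ∑ j ∈ range (2 * m + 1), a (th (2 * m - j)) = ∑ j ∈ range (2 * m + 1), a (th j) := by
      have := Finset.sum_range_reflect (fun j => a (th j)) (2 * m + 1)
      rw [← this]
      refine Finset.sum_congr rfl fun j hj => ?_
      congr 2
    have h2 : ∀ j ∈ range (2 * m + 1), 2 * (Real.exp (-4) * p ^ 2) ≤
        a (th j) + a (th (2 * m - j)) := by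
      intro j hj
      rw [Finset.mem_range] at hj
      have h3 := hpair (th j) (hthr j (by omega))
      have h4 : th (2 * m - j) = - th j := by
        rw [hth]
        beta_reduce
        rw [Nat.cast_sub (by omega)]
        push_cast
        ring
      rw [h4]
      exact h3
    have h3 := Finset.sum_le_sum h2
    rw [Finset.sum_const, Finset.card_range, nsmul_eq_mul, Finset.sum_add_distrib, h1] at h3
    rw [Finset.sum_range_succ] at h3
    push_cast at h3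
    have h4 := ha1 (th (2 * m))
    linarith
  have hA2 := mul_le_mul_of_nonneg_left hA
    (show 0 ≤ (Real.exp (-1) * (θ₀ / m)) * (t * u * K * b) by positivity)
  have h1 : (Real.exp (-1) * (θ₀ / m)) * (t * u * K * b) *
      ((2 * m + 1) * (Real.exp (-4) * p ^ 2) - 1) ≤
      1 + (2 * m : ℕ) * (2 * (Real.exp 1 * (θ₀ / m) * t * R) ^ 2 +
          Real.exp 1 * (θ₀ / m) * (7 * t * u * K ^ 2)) := by linarith
  have e1 : ((2 * m : ℕ) : ℝ) * (2 * (Real.exp 1 * (θ₀ / m) * t * R) ^ 2 +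
      Real.exp 1 * (θ₀ / m) * (7 * t * u * K ^ 2)) =
      (4 * (Real.exp 1 * θ₀ * t * R) ^ 2) / m + 14 * Real.exp 1 * θ₀ * t * u * K ^ 2 := by
    push_cast
    field_simp
    ring
  have e2 : (Real.exp (-1) * (θ₀ / m)) * (t * u * K * b) *
      ((2 * m + 1) * (Real.exp (-4) * p ^ 2) - 1) =
      2 * Real.exp (-1) * θ₀ * (t * u * K * b) * (Real.exp (-4) * p ^ 2) +
        (Real.exp (-1) * (θ₀ / m)) * (t * u * K * b) * (Real.exp (-4) * p ^ 2) -
        (Real.exp (-1) * θ₀ * t * u * K * b) / m := by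
    field_simp
  rw [e1, e2] at h1
  have h2 : X / m ≤ 1 := by rw [div_le_one hm0]; exact hmX
  rw [hX, add_div] at h2
  have h3 : 0 ≤ (Real.exp (-1) * (θ₀ / m)) * (t * u * K * b) * (Real.exp (-4) * p ^ 2) := by
    positivity
  have h4 : 2 * Real.exp (-1) * θ₀ * (t * u * K * b) * (Real.exp (-4) * p ^ 2) ≤
      2 + 14 * Real.exp 1 * θ₀ * t * u * K ^ 2 := by linarith
  have h5 : Real.exp (-1) * Real.exp (-4) * Real.exp 5 = 1 := by
    rw [← Real.exp_add, ← Real.exp_add]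
    norm_num
  have h6 : Real.exp 5 * Real.exp 1 = Real.exp 6 := by
    rw [← Real.exp_add]
    norm_num
  have h7 : p ^ 2 * (θ₀ * (t * u * K * b)) ≤ Real.exp 5 + 7 * Real.exp 6 * θ₀ * t * u * K ^ 2 := by
    have h8 := mul_le_mul_of_nonneg_left h4 (show 0 ≤ Real.exp 5 / 2 by positivity)
    have h9 : Real.exp 5 / 2 * (2 * Real.exp (-1) * θ₀ * (t * u * K * b) *
        (Real.exp (-4) * p ^ 2)) = (Real.exp (-1) * Real.exp (-4) * Real.exp 5) *
          (p ^ 2 * (θ₀ * (t * u * K * b))) := by ring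
    rw [h9, h5, one_mul] at h8
    refine h8.trans (le_of_eq ?_)
    rw [← h6]
    ring
  have h8 : p ^ 2 ≤ (Real.exp 5 + 7 * Real.exp 6 * θ₀ * t * u * K ^ 2) /
      (θ₀ * (t * u * K * b)) := by
    rw [le_div_iff₀ (by positivity)]
    exact h7
  refine h8.trans ?_
  have h9 : (Real.exp 5 + 7 * Real.exp 6 * θ₀ * t * u * K ^ 2) / (θ₀ * (t * u * K * b)) =
      Real.exp 5 * (s / (t * u * b * K)) + 7 * Real.exp 6 * (K / b) := by
    rw [hθ₀]
    field_simp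
  rw [h9, mul_add]
  refine add_le_add ?_ le_rfl
  refine mul_le_mul_of_nonneg_right ?_ (by positivity)
  have h10 : Real.exp 5 ≤ Real.exp 6 := by
    rw [Real.exp_le_exp]
    norm_num
  have h11 : 0 < Real.exp 6 := Real.exp_pos 6
  linarith

end Pool.Agent.N795.LN
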