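import Pool.Agent.N795.LN.Stm
import Pool.Agent.N795.ST.Weak
import Pool.Agent.TH268.PD.StirOrd
import Pool.Agent.TH268.PD.Varl

/-!
# Summable rates on the torus: the limits of the masses
-/

set_option autoImplicit false

namespace Pool.Agent.N795.LN

open Finset Equiv Filter Topology
open Pool.Agent.W805.LR (len cnt)
open Pool.Agent.TH268.PD (law mas TT BD top frac pdm)
open Pool.Agent.TH268.PD.LocC (E)
open Pool.Agent.N795.ST
open Pool.Agent.N795.ST.N130NF (dz dz_inj dz_zero card_core bcore_self nrm_eq_zero)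

/-- summable rates, bounded from below by `lam |z| ^ (-(d + σ))` -/
structure SM (d : ℕ) (σ lam S : ℝ) (J : (Fin d → ℤ) → ℝ) : Prop where
  lpos : 0 < lam
  low : ∀ z, z ≠ 0 → lam * (nrm z : ℝ) ^ (-((d : ℝ) + σ)) ≤ J z
  sum : ∀ s : Finset (Fin d → ℤ), 0 ∉ s → ∑ z ∈ s, J z ≤ S

/-- the rates, `0` at `0` -/
noncomputable def J0 {d : ℕ} (J : (Fin d → ℤ) → ℝ) (z : Fin d → ℤ) : ℝ :=
  open Classical in if z = 0 then 0 else J z

/-- the weight of a displacement -/
noncomputable def wgt {d : ℕ} (n : ℕ) (z : Fin d → ℤ) : ℝ := min 1 (2 * d * (nrm z : ℝ) / n)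

/-- the rate of the pairs in different boxes, per point -/
noncomputable def rho {d : ℕ} (J : (Fin d → ℤ) → ℝ) (n : ℕ) : ℝ := ∑' z, wgt n z * J0 J z

section

variable {d : ℕ} {σ lam S : ℝ} {J : (Fin d → ℤ) → ℝ}

theorem SM.nonneg (h : SM d σ lam S J) (z : Fin d → ℤ) (hz : z ≠ 0) : 0 ≤ J z := by
  refine le_trans ?_ (h.low z hz)
  have := h.lpos
  positivity

theorem SM.J0_nonneg (h : SM d σ lam S J) (z : Fin d → ℤ) : 0 ≤ J0 J z := by
  unfold J0
  split_ifs with hz
  · exact le_rfl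
  · exact h.nonneg z hz

theorem SM.S_nonneg (h : SM d σ lam S J) : 0 ≤ S := by
  have := h.sum ∅ (by simp)
  simpa using this

theorem SM.summable (h : SM d σ lam S J) : Summable (J0 J) := by
  classical
  refine summable_of_sum_le h.J0_nonneg (c := S) fun s => ?_
  have h1 : ∑ z ∈ s, J0 J z = ∑ z ∈ s.filter (fun z => z ≠ 0), J z := by
    rw [Finset.sum_filter]
    refine Finset.sum_congr rfl fun z _ => ?_
    unfold J0
    by_cases hz : z = 0
    · rw [if_pos hz, if_neg (fun h' => h' hz)]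
    · rw [if_neg hz, if_pos hz]
  rw [h1]
  exact h.sum _ (by simp)

theorem wgt_nonneg (n : ℕ) (z : Fin d → ℤ) : 0 ≤ wgt n z := le_min zero_le_one (by positivity)

theorem wgt_le_one (n : ℕ) (z : Fin d → ℤ) : wgt n z ≤ 1 := min_le_left _ _

theorem SM.wsummable (h : SM d σ lam S J) (n : ℕ) : Summable fun z => wgt n z * J0 J z :=
  Summable.of_nonneg_of_le (fun z => mul_nonneg (wgt_nonneg n z) (h.J0_nonneg z))
    (fun z => by
      have := mul_le_mul_of_nonneg_right (wgt_le_one n z) (h.J0_nonneg z)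
      rwa [one_mul] at this) h.summable

theorem SM.rho_nonneg (h : SM d σ lam S J) (n : ℕ) : 0 ≤ rho J n :=
  tsum_nonneg fun z => mul_nonneg (wgt_nonneg n z) (h.J0_nonneg z)

theorem SM.rho_lim (h : SM d σ lam S J) : Tendsto (fun n : ℕ => rho J n) atTop (𝓝 0) := by
  have h1 := tendsto_tsum_of_dominated_convergence (𝓕 := atTop) (f := fun (n : ℕ) z =>
    wgt n z * J0 J z) (g := fun _ => (0 : ℝ)) (bound := J0 J) h.summable (fun z => ?_)
    (Filter.Eventually.of_forall fun n z => ?_)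
  · rw [tsum_zero] at h1
    exact h1
  · have h2 : Tendsto (fun n : ℕ => 2 * (d : ℝ) * (nrm z : ℝ) / n) atTop (𝓝 0) :=
      tendsto_const_nhds.div_atTop tendsto_natCast_atTop_atTop
    have h3 : Tendsto (fun n : ℕ => wgt n z) atTop (𝓝 0) :=
      squeeze_zero (fun n => wgt_nonneg n z) (fun n => min_le_right _ _) h2
    have h4 := h3.mul_const (J0 J z)
    rwa [zero_mul] at h4
  · rw [Real.norm_eq_abs, abs_of_nonneg (mul_nonneg (wgt_nonneg n z) (h.J0_nonneg z))]
    have := mul_le_mul_of_nonneg_right (wgt_le_one n z) (h.J0_nonneg z)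
    rwa [one_mul] at this

theorem SM.tr_nonneg (h : SM d σ lam S J) {M : ℕ} (x y : Fin d → ZMod M) : 0 ≤ tr J x y := by
  unfold tr
  split_ifs with hxy
  · exact le_rfl
  · have h1 := h.nonneg (disp x y) (fun h' => hxy ((disp_eq_zero x y).1 h'))
    have h2 := h.nonneg (disp y x) (fun h' => hxy ((disp_eq_zero y x).1 h').symm)
    linarith

theorem SM.row (h : SM d σ lam S J) (n : ℕ) [NeZero n] (x : Fin d → ZMod n) :
    ∑ y, tr J x y ≤ S := row_le S h.sum n x

theorem SM.le_tr (h : SM d σ lam S J) {M : ℕ} {x y : Fin d → ZMod M} (hxy : x ≠ y) :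
    lam * (nrm (disp x y) : ℝ) ^ (-((d : ℝ) + σ)) ≤ tr J x y := by
  unfold tr
  rw [if_neg hxy]
  have h1 := h.low (disp x y) (fun h' => hxy ((disp_eq_zero x y).1 h'))
  have h2 := h.low (disp y x) (fun h' => hxy ((disp_eq_zero y x).1 h').symm)
  rw [← nrm_symm x y] at h2
  linarith

theorem SM.tr_lower (h : SM d σ lam S J) (hσ : 0 < σ) (n : ℕ) [NeZero n]
    (x y : Fin d → ZMod n) (hxy : x ≠ y) : lam * (n : ℝ) ^ (-((d : ℝ) + σ)) ≤ tr J x y := by
  refine le_trans ?_ (h.le_tr hxy)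
  refine mul_le_mul_of_nonneg_left ?_ h.lpos.le
  have h1 : (1 : ℝ) ≤ (nrm (disp x y) : ℝ) := by
    exact_mod_cast nrm_pos fun h' => hxy ((disp_eq_zero x y).1 h')
  have h2 : (nrm (disp x y) : ℝ) ≤ n := by exact_mod_cast nrm_le x y
  refine Real.rpow_le_rpow_of_nonpos (by linarith) h2 ?_
  have : (0 : ℝ) ≤ d := by positivity
  linarith

theorem SM.cor_nonneg (h : SM d σ lam S J) {M : ℕ} (n : ℕ) (x y : Fin d → ZMod M) :
    0 ≤ cor J n x y := by
  unfold cor
  split_ifs
  · exact h.tr_nonneg x y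
  · exact le_rfl

/-- one direction of the rates between different boxes -/
theorem SM.bad_one (h : SM d σ lam S J) (hd : 1 ≤ d) (M n : ℕ) [NeZero M] [NeZero n]
    (hn : n ∣ M) :
    ∑ x : Fin d → ZMod M, ∑ y, (open Classical in
      if ¬ bcore n x y then (if x = y then 0 else J (disp x y)) else 0) ≤
      (Fintype.card (Fin d → ZMod M) : ℝ) * rho J n := by
  classical
  have hn0 : (0 : ℝ) < n := by exact_mod_cast Nat.pos_of_ne_zero (NeZero.ne n)
  have hd1 : (1 : ℝ) ≤ d := by exact_mod_cast hd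
  obtain ⟨N, hN⟩ : ∃ N : ℝ, N = Fintype.card (Fin d → ZMod M) := ⟨_, rfl⟩
  have hN0 : 0 ≤ N := by rw [hN]; positivity
  -- change of variables
  have e1 : ∑ x : Fin d → ZMod M, ∑ y, (if ¬ bcore n x y then
      (if x = y then 0 else J (disp x y)) else 0) =
      ∑ e : Fin d → ZMod M, ∑ x : Fin d → ZMod M, (if ¬ bcore n x (x - e) then
        (if e = 0 then 0 else J (dz e)) else 0) := by
    rw [Finset.sum_comm (γ := Fin d → ZMod M)
      (f := fun e x => if ¬ bcore n x (x - e) then (if e = 0 then 0 else J (dz e)) else 0)]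
    refine Finset.sum_congr rfl fun x _ => ?_
    rw [← Equiv.sum_comp (Equiv.subLeft x)]
    refine Finset.sum_congr rfl fun e _ => ?_
    have q1 : (Equiv.subLeft x) e = x - e := rfl
    rw [q1, N130NF.disp_eq, sub_sub_cancel]
    have q2 : x = x - e ↔ e = 0 := by
      constructor
      · intro h'
        have : x - (x - e) = x - x := by rw [← h']
        rwa [sub_sub_cancel, sub_self] at this
      · rintro rfl
        rw [sub_zero]
    by_cases he : e = 0
    · rw [if_pos (q2.2 he), if_pos he]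
    · rw [if_neg (fun h' => he (q2.1 h')), if_neg he]
  rw [e1]
  have h1 : ∀ e : Fin d → ZMod M, ∑ x : Fin d → ZMod M, (if ¬ bcore n x (x - e) then
        (if e = 0 then 0 else J (dz e)) else 0) ≤ N * (wgt n (dz e) * J0 J (dz e)) := by
    intro e
    by_cases he : e = 0
    · rw [if_pos he]
      refine le_trans (le_of_eq (Finset.sum_eq_zero fun x _ => ?_))
        (mul_nonneg hN0 (mul_nonneg (wgt_nonneg n _) (h.J0_nonneg _)))
      split_ifs <;> rfl
    · have hdz : dz e ≠ 0 := fun h' => he (dz_inj (h'.trans dz_zero.symm))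
      have hJ0 := h.nonneg (dz e) hdz
      have hJe : J0 J (dz e) = J (dz e) := by unfold J0; rw [if_neg hdz]
      have hnr : (1 : ℝ) ≤ nrm (dz e) := by exact_mod_cast nrm_pos hdz
      rw [if_neg he, hJe, ← Finset.sum_filter, Finset.sum_const, nsmul_eq_mul, ← mul_assoc]
      refine mul_le_mul_of_nonneg_right ?_ hJ0
      have h0 : ((univ.filter fun x : Fin d → ZMod M => ¬ bcore n x (x - e)).card : ℝ) ≤ N := by
        rw [hN]
        exact_mod_cast Finset.card_le_univ _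
      have h2 : (n : ℝ) * ((univ.filter fun x : Fin d → ZMod M => ¬ bcore n x (x - e)).card : ℝ) ≤
          2 * d * N * nrm (dz e) := by
        by_cases h3 : 2 * nrm (dz e) < n
        · have h4 := card_core hd hn e h3 (fun x => ¬ bcore n x (x - e)) (fun x hx => hx)
          have h5 : (n : ℝ) * ((univ.filter fun x : Fin d → ZMod M =>
              ¬ bcore n x (x - e)).card : ℝ) ≤ N * (d * nrm (dz e)) := by
            rw [hN]
            exact_mod_cast h4
          refine h5.trans ?_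
          have h6 : 0 ≤ N * (d * nrm (dz e)) := by positivity
          linarith
        · rw [not_lt] at h3
          have h4 : (n : ℝ) ≤ 2 * nrm (dz e) := by exact_mod_cast h3
          calc (n : ℝ) * ((univ.filter fun x : Fin d → ZMod M =>
                ¬ bcore n x (x - e)).card : ℝ) ≤ (2 * nrm (dz e)) * N :=
                mul_le_mul h4 h0 (by positivity) (by positivity)
            _ ≤ 2 * d * N * nrm (dz e) := by
                have h6 : 0 ≤ 2 * N * nrm (dz e) := by positivity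
                nlinarith
      unfold wgt
      rcases min_choice (1 : ℝ) (2 * d * (nrm (dz e) : ℝ) / n) with h3 | h3
      · rw [h3, mul_one]
        exact h0
      · rw [h3, ← mul_div_assoc, le_div_iff₀ hn0]
        linarith
  refine (Finset.sum_le_sum fun e _ => h1 e).trans ?_
  rw [← Finset.mul_sum, ← hN]
  refine mul_le_mul_of_nonneg_left ?_ hN0
  have h2 := (h.wsummable n).sum_le_tsum (univ.image (dz : (Fin d → ZMod M) → (Fin d → ℤ)))
    (fun z _ => mul_nonneg (wgt_nonneg n z) (h.J0_nonneg z))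
  rwa [Finset.sum_image fun y _ y' _ h' => dz_inj h'] at h2

/-- the rates between different boxes -/
theorem SM.bad (h : SM d σ lam S J) (hd : 1 ≤ d) (M n : ℕ) [NeZero M] [NeZero n] (hn : n ∣ M) :
    ∑ x : Fin d → ZMod M, ∑ y, |tr J x y - cor J n x y| / 2 ≤
      (Fintype.card (Fin d → ZMod M) : ℝ) * rho J n / 2 := by
  classical
  have h1 := h.bad_one hd M n hn
  obtain ⟨D, hD⟩ : ∃ D : (Fin d → ZMod M) → (Fin d → ZMod M) → ℝ, D = fun x y =>
    if ¬ bcore n x y then (if x = y then 0 else J (disp x y)) else 0 := ⟨_, rfl⟩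
  have e1 : ∀ x y : Fin d → ZMod M, |tr J x y - cor J n x y| / 2 = (D x y + D y x) / 4 := by
    intro x y
    rw [hD]
    beta_reduce
    unfold cor
    by_cases hb : bcore n x y
    · rw [if_pos hb, sub_self, abs_zero, if_neg (fun h' => h' hb),
        if_neg (fun h' => h' (bcore_symm hb))]
      ring
    · have hb' : ¬ bcore n y x := fun h' => hb (bcore_symm h')
      rw [if_neg hb, sub_zero, abs_of_nonneg (h.tr_nonneg x y), if_pos hb, if_pos hb']
      unfold tr
      by_cases hxy : x = y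
      · rw [if_pos hxy, if_pos hxy, if_pos hxy.symm]
        ring
      · rw [if_neg hxy, if_neg hxy, if_neg (Ne.symm hxy)]
        ring
  have e2 : ∑ x : Fin d → ZMod M, ∑ y, |tr J x y - cor J n x y| / 2 =
      (∑ x, ∑ y, D x y) / 2 := by
    have e3 : ∑ x : Fin d → ZMod M, ∑ y, D y x = ∑ x, ∑ y, D x y := Finset.sum_comm
    have e4 : ∑ x : Fin d → ZMod M, ∑ y, |tr J x y - cor J n x y| / 2 =
        (∑ x, ∑ y, D x y + ∑ x, ∑ y, D y x) / 4 := by
      rw [← Finset.sum_add_distrib, Finset.sum_div]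
      refine Finset.sum_congr rfl fun x _ => ?_
      rw [← Finset.sum_add_distrib, Finset.sum_div]
      exact Finset.sum_congr rfl fun y _ => e1 x y
    rw [e4, e3]
    ring
  rw [e2]
  refine div_le_div_of_nonneg_right ?_ two_pos.le
  rw [hD]
  exact h1

/-- comparison of the torus of side `m n` with the torus of side `n` -/
theorem SM.step (h : SM d σ lam S J) (hGeo : Geo) (hd : 1 ≤ d) (t : ℝ) (ht : 0 < t) (m n : ℕ)
    [NeZero m] [NeZero n] [NeZero (m * n)] (K : ℝ) (hK : 0 ≤ K) :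
    |aa J t K (m * n) - aa J t K n| ≤ 2 * t * K * rho J n := by
  have hcn : ∀ (M : ℕ) [NeZero M], n ∣ M →
      |mn (tr J : (Fin d → ZMod M) → (Fin d → ZMod M) → ℝ) t (mas K) -
        mn (cor J n : (Fin d → ZMod M) → (Fin d → ZMod M) → ℝ) t (mas K)| ≤
        t * K * rho J n := by
    intro M _ hM
    have hN : (0 : ℝ) < Fintype.card (Fin d → ZMod M) := by exact_mod_cast Fintype.card_pos
    have h1 := cmp (J₁ := (tr J : (Fin d → ZMod M) → (Fin d → ZMod M) → ℝ))
      (J₂ := (cor J n : (Fin d → ZMod M) → (Fin d → ZMod M) → ℝ)) (t := t)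
      (fun x y => h.tr_nonneg x y)
      (fun x y => h.cor_nonneg n x y) ht.le (mas_BD hK)
    refine h1.trans ?_
    have h2 := h.bad hd M n hM
    have h4 := mul_le_mul_of_nonneg_right (mul_le_mul_of_nonneg_left h2 ht.le)
      (show 0 ≤ 2 * K / (Fintype.card (Fin d → ZMod M) : ℝ) by positivity)
    refine h4.trans (le_of_eq ?_)
    field_simp
  have a4 := copies (E m n d) (cor J n : (Fin d → ZMod n) → (Fin d → ZMod n) → ℝ) t K
  rw [J2_cor hGeo J m n] at a4
  have h1 := abs_le.1 (hcn n dvd_rfl)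
  have h2 := abs_le.1 (hcn (m * n) (Dvd.intro_left m rfl))
  have e1 : 2 * t * K * rho J n = 2 * (t * K * rho J n) := by ring
  rw [e1]
  unfold aa
  rw [abs_le]
  constructor <;> linarith [h1.1, h1.2, h2.1, h2.2]

theorem SM.aa_nonneg (h : SM d σ lam S J) {t : ℝ} (ht : 0 < t) (K : ℝ) (n : ℕ) [NeZero n] :
    0 ≤ aa J t K n :=
  mn_nonneg (fun x y => h.tr_nonneg x y) ht.le fun g => Pool.Agent.TH268.PD.mas_nonneg K g

theorem SM.aa_le_one (h : SM d σ lam S J) {t : ℝ} (ht : 0 < t) (K : ℝ) (n : ℕ) [NeZero n] :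
    aa J t K n ≤ 1 :=
  mn_le_const (fun x y => h.tr_nonneg x y) ht.le 1 fun g => Pool.Agent.TH268.PD.mas_le_one K g

theorem SM.aa_anti (h : SM d σ lam S J) {t : ℝ} (ht : 0 < t) {K K' : ℝ} (hK : K ≤ K') (n : ℕ)
    [NeZero n] : aa J t K' n ≤ aa J t K n :=
  mn_mono (fun x y => h.tr_nonneg x y) ht.le fun g => Pool.Agent.TH268.PD.mas_anti hK g

/-- the mass converges -/
theorem SM.alpha (h : SM d σ lam S J) (hGeo : Geo) (hd : 1 ≤ d) (t : ℝ) (ht : 0 < t) (K : ℝ)
    (hK : 0 ≤ K) : ∃ α : ℝ, Tendsto (fun L : ℕ => aa J t K (L + 1)) atTop (𝓝 α) := by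
  have hstep : ∀ L L' : ℕ, |aa J t K (L + 1) - aa J t K (L' + 1)| ≤
      2 * t * K * rho J (L + 1) + 2 * t * K * rho J (L' + 1) := by
    intro L L'
    have i1 : NeZero ((L' + 1) * (L + 1)) := ⟨by positivity⟩
    have i2 : NeZero ((L + 1) * (L' + 1)) := ⟨by positivity⟩
    have h1 := h.step hGeo hd t ht (L' + 1) (L + 1) K hK
    have h2 := h.step hGeo hd t ht (L + 1) (L' + 1) K hK
    have h3 : aa J t K ((L + 1) * (L' + 1)) = aa J t K ((L' + 1) * (L + 1)) :=
      aa_congr J t K (mul_comm _ _)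
    rw [h3] at h2
    have h4 := abs_sub_le (aa J t K (L + 1)) (aa J t K ((L' + 1) * (L + 1))) (aa J t K (L' + 1))
    rw [abs_sub_comm (aa J t K (L + 1)) (aa J t K ((L' + 1) * (L + 1)))] at h4
    linarith
  have hlim : Tendsto (fun L : ℕ => 2 * t * K * rho J (L + 1)) atTop (𝓝 0) := by
    have h1 := (h.rho_lim.comp (tendsto_add_atTop_nat 1)).const_mul (2 * t * K)
    rw [mul_zero] at h1
    exact h1
  have hcau : CauchySeq (fun L : ℕ => aa J t K (L + 1)) := by
    rw [Metric.cauchySeq_iff]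
    intro ε hε
    obtain ⟨L₀, hL₀⟩ := Filter.eventually_atTop.1
      (hlim.eventually_lt_const (show (0 : ℝ) < ε / 2 by positivity))
    refine ⟨L₀, fun m hm n hn => ?_⟩
    rw [Real.dist_eq]
    have h1 := hL₀ m hm
    have h2 := hL₀ n hn
    exact lt_of_le_of_lt (hstep m n) (by linarith)
  obtain ⟨z, hz⟩ := cauchySeq_tendsto_of_complete hcau
  exact ⟨z, hz⟩

/-- the limits for all lengths -/
theorem SM.al (h : SM d σ lam S J) (hGeo : Geo) (hd : 1 ≤ d) (t : ℝ) (ht : 0 < t) :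
    ∃ (α : ℝ → ℝ) (m : ℝ), 0 ≤ m ∧ m ≤ 1 ∧
      (∀ K, 0 ≤ K → Tendsto (fun L : ℕ => aa J t K (L + 1)) atTop (𝓝 (α K))) ∧
      (∀ K, 0 ≤ K → m ≤ α K) ∧ Tendsto α atTop (𝓝 m) := by
  have h0 : ∀ K : ℝ, ∃ α : ℝ, 0 ≤ K → Tendsto (fun L : ℕ => aa J t K (L + 1)) atTop (𝓝 α) := by
    intro K
    by_cases hK : 0 ≤ K
    · obtain ⟨α, hα⟩ := h.alpha hGeo hd t ht K hK
      exact ⟨α, fun _ => hα⟩
    · exact ⟨0, fun h => absurd h hK⟩
  choose α hα using h0
  have hα0 : ∀ K, 0 ≤ K → 0 ≤ α K := fun K hK =>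
    ge_of_tendsto' (hα K hK) fun L => h.aa_nonneg ht K (L + 1)
  have hα1 : ∀ K, 0 ≤ K → α K ≤ 1 := fun K hK =>
    le_of_tendsto' (hα K hK) fun L => h.aa_le_one ht K (L + 1)
  have hanti : ∀ K K' : ℝ, 0 ≤ K → K ≤ K' → α K' ≤ α K := fun K K' hK hKK =>
    le_of_tendsto_of_tendsto' (hα K' (hK.trans hKK)) (hα K hK) fun L =>
      h.aa_anti ht hKK (L + 1)
  obtain ⟨T, hT⟩ : ∃ T : Set ℝ, T = α '' Set.Ici 0 := ⟨_, rfl⟩
  have hne : T.Nonempty := ⟨α 0, by rw [hT]; exact ⟨0, Set.mem_Ici.2 le_rfl, rfl⟩⟩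
  have hbd : BddBelow T := ⟨0, by
    rw [hT]
    rintro _ ⟨K, hK, rfl⟩
    exact hα0 K hK⟩
  have hlow : ∀ K, 0 ≤ K → sInf T ≤ α K := fun K hK => csInf_le hbd (by rw [hT]; exact ⟨K, hK, rfl⟩)
  refine ⟨α, sInf T, ?_, ?_, hα, hlow, ?_⟩
  · refine le_csInf hne ?_
    rw [hT]
    rintro _ ⟨K, hK, rfl⟩
    exact hα0 K hK
  · exact (hlow 0 le_rfl).trans (hα1 0 le_rfl)
  · rw [Metric.tendsto_atTop]
    intro ε hε
    obtain ⟨_, hx, hlt⟩ := exists_lt_of_csInf_lt hne (show sInf T < sInf T + ε by linarith)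
    rw [hT] at hx
    obtain ⟨K₁, hK₁, rfl⟩ := hx
    have hK₁' : 0 ≤ K₁ := hK₁
    refine ⟨K₁, fun K hK => ?_⟩
    have h1 := hanti K₁ K hK₁' hK
    have h2 := hlow K (le_trans hK₁' hK)
    rw [Real.dist_eq, abs_of_nonneg (by linarith)]
    linarith

end

end Pool.Agent.N795.LN
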