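import Pool.Agent.N795.ST.Stm

/-!
# Random stirring with long range rates, all exponents: statements
-/

set_option autoImplicit false

namespace Pool.Agent.N795.LN

open Finset Equiv
open Pool.Agent.W805.LR (len cnt)
open Pool.Agent.TH268.PD (law mas)
open Pool.Agent.N795.ST (win disp nrm)

/-- the probability that the cycle of `v` has `k` points -/
noncomputable def prk {V : Type} [Fintype V] [DecidableEq V] (J : V → V → ℝ) (t : ℝ) (v : V)
    (k : ℕ) : ℝ := ∑ g, law J t g * (open Classical in if len g v = k then (1 : ℝ) else 0)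

/-- The strength of the rates `U` is changed by the factors `ρ` and `1 / ρ`: up to an explicit
factor the probability of a cycle event is at most the mean of the two probabilities -/
def Star : Prop := ∀ (V : Type) [Fintype V] [DecidableEq V] (J U : V → V → ℝ) (t κ ρ : ℝ) (v : V)
  (k : ℕ), (∀ x y, 0 ≤ J x y) → (∀ x y, 0 ≤ U x y) → 0 ≤ t → 0 ≤ κ → 0 < ρ →
    (∀ x, ∑ y, (U x y + U y x) / 2 ≤ κ) →
    2 * prk (fun x y => J x y + U x y) t v k ≤
      Real.exp (t * k * κ * (ρ + ρ⁻¹ - 2) / 2) * (prk (fun x y => J x y + ρ * U x y) t v k +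
        prk (fun x y => J x y + ρ⁻¹ * U x y) t v k)

/-- a lower bound for the derivative in the strength of the rates `U`, in finite form -/
def OneStep : Prop := ∀ (V : Type) [Fintype V] [DecidableEq V] (J U : V → V → ℝ) (t h : ℝ)
  (F H : Perm V → ℝ), (∀ x y, 0 ≤ J x y) → (∀ x y, 0 ≤ U x y) → 0 ≤ t → 0 ≤ h →
    (∀ g, 0 ≤ F g) → (∀ g, F g ≤ 1) →
    (∀ g₁ g₂ : Perm V, H (g₁ * g₂) ≤
      ∑ x, ∑ y, U x y / 2 * (F (g₁ * swap x y * g₂) - F (g₁ * g₂))) →
    ∑ g, law J t g * F g + h * t * ∑ g, law J t g * H g ≤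
      ∑ g, law (fun x y => J x y + h * U x y) t g * F g +
        2 * (h * t * ∑ x, ∑ y, U x y / 2) ^ 2

/-- the deterministic inequality: growth of the mass of the cycles with at least `2 K` points -/
def Det : Prop := ∀ (V : Type) [Fintype V] [DecidableEq V] [Nonempty V] (U : V → V → ℝ) (u K : ℝ)
  (g₁ g₂ : Perm V), (∀ x y, 0 ≤ U x y) → (∀ x y, U x y ≤ u) → 0 < K →
    K / Fintype.card V * (∑ x, ∑ y, (open Classical in
        if (K ≤ len (g₁ * g₂) (g₂⁻¹ x) ∧ len (g₁ * g₂) (g₂⁻¹ x) < 2 * K) ∧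
          (K ≤ len (g₁ * g₂) (g₂⁻¹ y) ∧ len (g₁ * g₂) (g₂⁻¹ y) < 2 * K)
        then U x y else 0)) - 6 * u * K ^ 2 ≤
      ∑ x, ∑ y, U x y / 2 * (mas (2 * K) (g₁ * swap x y * g₂) - mas (2 * K) (g₁ * g₂))

/-- the window bound: if the rates contain a part `U ≤ u` with row sums at most `κ`, and every set
`W` of points has total `U`-rate at least `u (|W|² b / N - |W|)` inside, then there are few cycles
with a number of points in `[K, 2 K)`, as soon as `t u b K` and `b / K` are large -/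
def Lnmt : Prop := ∃ C : ℝ, 0 < C ∧ ∀ (V : Type) [Fintype V] [DecidableEq V] [Nonempty V]
  (J U : V → V → ℝ) (t u b κ K : ℝ), (∀ x y, 0 ≤ J x y) → (∀ x y, 0 ≤ U x y) →
    (∀ x y, U x y ≤ u) → 0 < t → 0 < u → 0 < b → 0 < κ → 1 ≤ K → 1 ≤ t * κ * K →
    (∀ x, ∑ y, (U x y + U y x) / 2 ≤ κ) →
    (∀ W : Finset V, u * ((W.card : ℝ) ^ 2 * b / Fintype.card V - W.card) ≤
      ∑ x ∈ W, ∑ y ∈ W, U x y) →
    (∑ g, law (fun x y => J x y + U x y) t g * win K (2 * K) g) ^ 2 ≤
      C * (Real.sqrt (t * κ * K) / (t * u * b * K) + K / b)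

/-- the rates `u` for all pairs of different points of the torus at distance at most `r` -/
noncomputable def ker {d M : ℕ} (u : ℝ) (r : ℕ) (x y : Fin d → ZMod M) : ℝ :=
  open Classical in if x ≠ y ∧ nrm (disp x y) ≤ r then u else 0

/-- row sums of `ker`, and its total rate inside a set of points -/
def Ker : Prop := ∀ (d M r : ℕ) [NeZero M] (u : ℝ), 0 ≤ u → r + 1 ≤ M →
  (∀ x : Fin d → ZMod M, ∑ y, (ker u r x y + ker u r y x) / 2 ≤ u * (2 * (r : ℝ) + 1) ^ d) ∧
  (∀ W : Finset (Fin d → ZMod M),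
    u * ((W.card : ℝ) ^ 2 * ((r : ℝ) + 1) ^ d / Fintype.card (Fin d → ZMod M) - W.card) ≤
      ∑ x ∈ W, ∑ y ∈ W, ker u r x y)

end Pool.Agent.N795.LN
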